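import Mathlib

/-!
# Word metrics, quasi-isometries, the groups `Γ` and `G`
-/

namespace MTorus

open FreeGroup

/-- The word length of `g` with respect to `S`: the least length of a product of elements of `S` and their inverses
which is `g`. -/
noncomputable def wl {E : Type} [Group E] (S : Set E) (g : E) : ℕ :=
  sInf {n | ∃ l : List E, (∀ x ∈ l, x ∈ S ∨ x⁻¹ ∈ S) ∧ l.length = n ∧ l.prod = g}

/-- The word metric. -/
noncomputable def wd {E : Type} [Group E] (S : Set E) (x y : E) : ℕ := wl S (x⁻¹ * y)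

/-- `f` is a quasi-isometry for the word metrics of `S` and `T`. -/
def IsQI {E E' : Type} [Group E] [Group E'] (S : Set E) (T : Set E') (f : E → E') : Prop :=
  ∃ K : ℕ, (∀ x y, wd T (f x) (f y) ≤ K * wd S x y + K) ∧ (∀ x y, wd S x y ≤ K * wd T (f x) (f y) + K) ∧
    ∀ z, ∃ x, wd T (f x) z ≤ K

/-- `f` maps every coset `g N` into the `K`-neighbourhood of a coset `g' N'`, with `K` independent of `g`. -/
def CosetsIntoCosets {E E' : Type} [Group E] [Group E'] (N : Subgroup E) (N' : Subgroup E') (T : Set E') (f : E → E') :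
    Prop :=
  ∃ K : ℕ, ∀ g : E, ∃ g' : E', ∀ x ∈ N, ∃ y ∈ N', wd T (f (g * x)) (g' * y) ≤ K

/-- The automorphism `a ↦ b`, `b ↦ c`, `c ↦ ab` of the free group on `a, b, c`. -/
def phi3 : MulAut (FreeGroup (Fin 3)) :=
  MonoidHom.toMulEquiv (lift ![of 1, of 2, of 0 * of 1]) (lift ![of 2 * (of 0)⁻¹, of 0, of 1])
    (by ext i; fin_cases i <;> simp) (by ext i; fin_cases i <;> simp)

/-- The automorphism `a ↦ b`, `b ↦ c`, `c ↦ ab`, `d ↦ ea`, `e ↦ ed` of the free group on `a, b, c, d, e`. -/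
def phi5 : MulAut (FreeGroup (Fin 5)) :=
  MonoidHom.toMulEquiv (lift ![of 1, of 2, of 0 * of 1, of 4 * of 0, of 4 * of 3])
    (lift ![of 2 * (of 0)⁻¹, of 0, of 1, of 2 * (of 0)⁻¹ * (of 3)⁻¹ * of 4, of 3 * of 0 * (of 2)⁻¹])
    (by ext i; fin_cases i <;> simp [mul_assoc]) (by ext i; fin_cases i <;> simp [mul_assoc])

/-- The mapping torus `H ⋊_ψ ℤ`: `t x t⁻¹ = ψ x`. -/
abbrev MT (H : Type) [Group H] (ψ : MulAut H) : Type := H ⋊[zpowersHom (MulAut H) ψ] (Multiplicative ℤ)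

/-- The fibre of the mapping torus. -/
def fibre (H : Type) [Group H] (ψ : MulAut H) : Subgroup (MT H ψ) := (SemidirectProduct.inl).range

/-- The group `Γ = F' ⋊ ℤ`. -/
abbrev Gam : Type := MT (FreeGroup (Fin 3)) phi3

/-- The group `G = F ⋊ ℤ`. -/
abbrev GG : Type := MT (FreeGroup (Fin 5)) phi5

end MTorus
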