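import Mathlib

/-!
# Groups fibred over the integers, coarse equivalences which respect the fibres
-/

namespace MTorus

/-- A group `E` which is a semidirect product of `H` and an infinite cyclic group `⟨t⟩`: every element has a part
`hp` in the fibre `H` and a height `ht`; `t⁻¹ x t = θ x` for `x` in the fibre. -/
structure Fib (E H : Type) [Group E] [Group H] where
  inc : H → E
  t : E
  ht : E → ℤ
  hp : E → H
  θ : MulAut H
  ht_mul : ∀ x y, ht (x * y) = ht x + ht y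
  hp_mul : ∀ x y, hp (x * y) = hp x * (θ ^ (-ht x)) (hp y)
  ht_inc : ∀ x, ht (inc x) = 0
  hp_inc : ∀ x, hp (inc x) = x
  ht_t : ht t = 1
  hp_t : hp t = 1
  ext : ∀ x y, hp x = hp y → ht x = ht y → x = y

namespace Fib

variable {E H : Type} [Group E] [Group H] (A : Fib E H)

theorem ht_one : A.ht 1 = 0 := by
  have h := A.ht_mul 1 1
  rw [mul_one] at h
  omega

theorem hp_one : A.hp 1 = 1 := by
  have h := A.hp_mul 1 1
  rw [mul_one, A.ht_one, neg_zero, zpow_zero, MulAut.one_apply] at h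
  exact (mul_left_cancel (a := A.hp 1) (by rw [mul_one]; exact h)).symm

theorem ht_inv (x : E) : A.ht x⁻¹ = -A.ht x := by
  have h := A.ht_mul x⁻¹ x
  rw [inv_mul_cancel, A.ht_one] at h
  omega

theorem hp_inv (x : E) : A.hp x⁻¹ = (A.θ ^ (A.ht x)) (A.hp x)⁻¹ := by
  have h := A.hp_mul x⁻¹ x
  rw [inv_mul_cancel, A.hp_one, A.ht_inv, neg_neg] at h
  rw [map_inv]
  exact eq_inv_of_mul_eq_one_left h.symm

theorem tz (r : ℤ) : A.ht (A.t ^ r) = r ∧ A.hp (A.t ^ r) = 1 := by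
  induction r using Int.induction_on with
  | zero => exact ⟨by rw [zpow_zero, A.ht_one], by rw [zpow_zero, A.hp_one]⟩
  | succ r ih =>
    rw [zpow_add_one]
    exact ⟨by rw [A.ht_mul, ih.1, A.ht_t], by rw [A.hp_mul, ih.2, A.hp_t, map_one, one_mul]⟩
  | pred r ih =>
    rw [zpow_sub_one]
    refine ⟨by rw [A.ht_mul, ih.1, A.ht_inv, A.ht_t]; ring, ?_⟩
    rw [A.hp_mul, ih.2, A.hp_inv, A.hp_t, inv_one, map_one, map_one, one_mul]

theorem ht_tz (r : ℤ) : A.ht (A.t ^ r) = r := (A.tz r).1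

theorem hp_tz (r : ℤ) : A.hp (A.t ^ r) = 1 := (A.tz r).2

theorem eq_dec (x : E) : x = A.inc (A.hp x) * A.t ^ A.ht x := by
  refine A.ext _ _ ?_ ?_
  · rw [A.hp_mul, A.hp_inc, A.ht_inc, A.hp_tz, map_one, mul_one]
  · rw [A.ht_mul, A.ht_inc, A.ht_tz, zero_add]

theorem eq_tz {x : E} (h : A.hp x = 1) : x = A.t ^ A.ht x :=
  A.ext _ _ (by rw [h, A.hp_tz]) (by rw [A.ht_tz])

theorem inc_mul (x y : H) : A.inc (x * y) = A.inc x * A.inc y := by
  refine A.ext _ _ ?_ ?_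
  · rw [A.hp_mul, A.hp_inc, A.hp_inc, A.hp_inc, A.ht_inc, neg_zero, zpow_zero, MulAut.one_apply]
  · rw [A.ht_mul, A.ht_inc, A.ht_inc, A.ht_inc, zero_add]

theorem inc_one : A.inc 1 = 1 :=
  A.ext _ _ (by rw [A.hp_inc, A.hp_one]) (by rw [A.ht_inc, A.ht_one])

theorem conj_hp (k : ℤ) (s : H) : A.hp (A.t ^ (-k) * (A.inc s * A.t ^ k)) = (A.θ ^ k) s := by
  rw [A.hp_mul, A.hp_tz, A.ht_tz, neg_neg, one_mul, A.hp_mul, A.hp_inc, A.ht_inc, A.hp_tz, map_one, mul_one]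

/-- The same group with the height reversed. -/
def rev : Fib E H where
  inc := A.inc
  t := A.t⁻¹
  ht x := -A.ht x
  hp := A.hp
  θ := A.θ⁻¹
  ht_mul x y := by rw [A.ht_mul]; ring
  hp_mul x y := by rw [A.hp_mul, inv_zpow', neg_neg]
  ht_inc x := by rw [A.ht_inc, neg_zero]
  hp_inc := A.hp_inc
  ht_t := by rw [A.ht_inv, A.ht_t]; norm_num
  hp_t := by rw [A.hp_inv, A.hp_t, inv_one, map_one]
  ext x y h1 h2 := A.ext x y h1 (neg_injective h2)

theorem rev_tz (r : ℤ) : A.rev.t ^ r = A.t ^ (-r) := by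
  show A.t⁻¹ ^ r = A.t ^ (-r)
  rw [inv_zpow']

end Fib

/-- `f` and `h` are coarsely inverse to each other and coarsely respect the fibres. -/
structure CE {E H E' H' : Type} [Group E] [Group H] [Group E'] [Group H'] (A : Fib E H) (B : Fib E' H')
    (f : E → E') (h : E' → E) (R : ℤ) : Prop where
  bf : ∀ X : Set E, X.Finite → ∃ Y : Set E', Y.Finite ∧ ∀ x y, x⁻¹ * y ∈ X → (f x)⁻¹ * f y ∈ Y
  bh : ∀ Y : Set E', Y.Finite → ∃ X : Set E, X.Finite ∧ ∀ x y, x⁻¹ * y ∈ Y → (h x)⁻¹ * h y ∈ X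
  hf : ∃ X : Set E, X.Finite ∧ ∀ x, x⁻¹ * h (f x) ∈ X
  fh : ∃ Y : Set E', Y.Finite ∧ ∀ y, y⁻¹ * f (h y) ∈ Y
  rf : ∀ x y, A.ht x = A.ht y → |B.ht (f x) - B.ht (f y)| ≤ R
  rh : ∀ x y, B.ht x = B.ht y → |A.ht (h x) - A.ht (h y)| ≤ R

section

variable {E H E' H' : Type} [Group E] [Group H] [Group E'] [Group H'] {A : Fib E H} {B : Fib E' H'}
  {f : E → E'} {h : E' → E} {R : ℤ}

theorem CE.symm (c : CE A B f h R) : CE B A h f R := ⟨c.bh, c.bf, c.fh, c.hf, c.rh, c.rf⟩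

theorem CE.revR (c : CE A B f h R) : CE A B.rev f h R := by
  refine ⟨c.bf, c.bh, c.hf, c.fh, fun x y hxy => ?_, fun x y hxy => c.rh x y (neg_injective hxy)⟩
  have h1 := c.rf x y hxy
  show |-B.ht (f x) - -B.ht (f y)| ≤ R
  rw [neg_sub_neg, abs_sub_comm]
  exact h1

theorem CE.revL (c : CE A B f h R) : CE A.rev B f h R := c.symm.revR.symm

theorem fin_bdd {α : Type} {X : Set α} (hX : X.Finite) (g : α → ℝ) : ∃ C, 0 ≤ C ∧ ∀ x ∈ X, g x ≤ C := by
  obtain ⟨C, hC⟩ := (hX.image g).bddAbove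
  exact ⟨max C 0, le_max_right _ _, fun x hx => (hC ⟨x, hx, rfl⟩).trans (le_max_left _ _)⟩

theorem fin_bddZ {α : Type} {X : Set α} (hX : X.Finite) (g : α → ℤ) : ∃ C, 0 ≤ C ∧ ∀ x ∈ X, |g x| ≤ C := by
  obtain ⟨C, hC⟩ := (hX.image fun x => |g x|).bddAbove
  exact ⟨max C 0, le_max_right _ _, fun x hx => (hC ⟨x, hx, rfl⟩).trans (le_max_left _ _)⟩

theorem fin_tz (A : Fib E H) (U : ℤ) : {x : E | ∃ r : ℤ, |r| ≤ U ∧ x = A.t ^ r}.Finite := by
  refine ((Set.finite_Icc (-U) U).image fun r : ℤ => A.t ^ r).subset ?_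
  rintro x ⟨r, hr, rfl⟩
  exact ⟨r, abs_le.1 hr, rfl⟩

end

/-- Subadditive functions on a group. -/
structure Len {H : Type} [Group H] (W : H → ℝ) : Prop where
  one : W 1 = 0
  nonneg : ∀ x, 0 ≤ W x
  mul : ∀ x y, W (x * y) ≤ W x + W y

/-- `θ` and `θ⁻¹` are Lipschitz for `W`. -/
def Lip {H : Type} [Group H] (θ : MulAut H) (W : H → ℝ) : Prop :=
  ∃ C : ℝ, 1 ≤ C ∧ ∀ x, W (θ x) ≤ C * W x ∧ W (θ⁻¹ x) ≤ C * W x

theorem Lip.zpow {H : Type} [Group H] {θ : MulAut H} {W : H → ℝ} (hl : Lip θ W) (hW : Len W) (U : ℤ) :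
    ∃ C : ℝ, 1 ≤ C ∧ ∀ r : ℤ, |r| ≤ U → ∀ x, W ((θ ^ r) x) ≤ C * W x := by
  obtain ⟨C, hC, h⟩ := hl
  have key : ∀ r : ℤ, ∀ x, W ((θ ^ r) x) ≤ C ^ r.natAbs * W x := by
    intro r
    induction r using Int.induction_on with
    | zero => intro x; simp
    | succ r ih =>
      intro x
      have e1 : ((r : ℤ) + 1).natAbs = (r : ℤ).natAbs + 1 := by omega
      rw [zpow_add_one, MulAut.mul_apply, e1, pow_succ]
      refine (ih (θ x)).trans ?_
      have := mul_le_mul_of_nonneg_left (h x).1 (pow_nonneg (zero_le_one.trans hC) (r : ℤ).natAbs)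
      linarith
    | pred r ih =>
      intro x
      have e1 : (-(r : ℤ) - 1).natAbs = (-(r : ℤ)).natAbs + 1 := by omega
      rw [zpow_sub_one, MulAut.mul_apply, e1, pow_succ]
      refine (ih (θ⁻¹ x)).trans ?_
      have := mul_le_mul_of_nonneg_left (h x).2 (pow_nonneg (zero_le_one.trans hC) (-(r : ℤ)).natAbs)
      linarith
  refine ⟨C ^ U.toNat, one_le_pow₀ hC, fun r hr x => (key r x).trans ?_⟩
  refine mul_le_mul_of_nonneg_right (pow_le_pow_right₀ hC ?_) (hW.nonneg x)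
  have h1 : (r.natAbs : ℤ) = |r| := Int.natCast_natAbs r
  omega

end MTorus
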