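import Pool.Agent.Lib.MP_f0e889_al.Tree

/-!
# A coarse equivalence which maps fibres into neighbourhoods of fibres respects the fibres
-/

namespace MTorus

open FreeGroup Filter Topology

/-- `f` and `h` are coarsely inverse to each other and `f` maps fibres into bounded neighbourhoods of fibres. -/
structure CE1 {E H E' H' : Type} [Group E] [Group H] [Group E'] [Group H'] (A : Fib E H) (B : Fib E' H')
    (f : E → E') (h : E' → E) (R : ℤ) : Prop where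
  bf : ∀ X : Set E, X.Finite → ∃ Y : Set E', Y.Finite ∧ ∀ x y, x⁻¹ * y ∈ X → (f x)⁻¹ * f y ∈ Y
  bh : ∀ Y : Set E', Y.Finite → ∃ X : Set E, X.Finite ∧ ∀ x y, x⁻¹ * y ∈ Y → (h x)⁻¹ * h y ∈ X
  hf : ∃ X : Set E, X.Finite ∧ ∀ x, x⁻¹ * h (f x) ∈ X
  fh : ∃ Y : Set E', Y.Finite ∧ ∀ y, y⁻¹ * f (h y) ∈ Y
  rf : ∀ x y, A.ht x = A.ht y → |B.ht (f x) - B.ht (f y)| ≤ R

section

variable {E H E' H' : Type} [Group E] [Group H] [Group E'] [Group H'] {A : Fib E H} {B : Fib E' H'}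
  {f : E → E'} {h : E' → E} {R : ℤ}

theorem CE1.proper (c : CE1 A B f h R) (Z : Set E') (hZ : Z.Finite) :
    ∃ X : Set E, X.Finite ∧ ∀ x y, (f x)⁻¹ * f y ∈ Z → x⁻¹ * y ∈ X := by
  obtain ⟨X₁, hX₁, h1⟩ := c.bh Z hZ
  obtain ⟨X₂, hX₂, h2⟩ := c.hf
  refine ⟨_, (hX₂.prod (hX₁.prod hX₂)).image fun p : E × E × E => p.1 * p.2.1 * p.2.2⁻¹, fun x y hxy => ?_⟩
  refine ⟨(x⁻¹ * h (f x), (h (f x))⁻¹ * h (f y), y⁻¹ * h (f y)), ⟨h2 x, h1 _ _ hxy, h2 y⟩, ?_⟩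
  show x⁻¹ * h (f x) * ((h (f x))⁻¹ * h (f y)) * (y⁻¹ * h (f y))⁻¹ = x⁻¹ * y
  group

theorem CE1.lip (c : CE1 A B f h R) (D : ℤ) : ∃ C : ℤ, 0 ≤ C ∧ ∀ x y : ℤ, |x - y| ≤ D →
    |B.ht (f (A.t ^ x)) - B.ht (f (A.t ^ y))| ≤ C := by
  obtain ⟨Y, hY, h1⟩ := c.bf _ (fin_tz A D)
  obtain ⟨C, hC, h2⟩ := fin_bddZ hY B.ht
  refine ⟨C, hC, fun x y hxy => ?_⟩
  have h3 := h2 _ (h1 (A.t ^ y) (A.t ^ x) ⟨x - y, hxy, by rw [← zpow_neg, ← zpow_add]; congr 1; ring⟩)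
  rw [B.ht_mul, B.ht_inv, neg_add_eq_sub] at h3
  exact h3

theorem CE1.hfz (c : CE1 A B f h R) : ∃ C : ℤ, 0 ≤ C ∧ ∀ x, |A.ht (h (f x)) - A.ht x| ≤ C := by
  obtain ⟨X, hX, h1⟩ := c.hf
  obtain ⟨C, hC, h2⟩ := fin_bddZ hX A.ht
  refine ⟨C, hC, fun x => ?_⟩
  have h3 := h2 _ (h1 x)
  rw [A.ht_mul, A.ht_inv, neg_add_eq_sub] at h3
  exact h3

theorem CE1.fhz (c : CE1 A B f h R) : ∃ C : ℤ, 0 ≤ C ∧ ∀ y, |B.ht (f (h y)) - B.ht y| ≤ C := by
  obtain ⟨Y, hY, h1⟩ := c.fh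
  obtain ⟨C, hC, h2⟩ := fin_bddZ hY B.ht
  refine ⟨C, hC, fun y => ?_⟩
  have h3 := h2 _ (h1 y)
  rw [B.ht_mul, B.ht_inv, neg_add_eq_sub] at h3
  exact h3

private theorem ivt (g : ℕ → ℤ) (L k C : ℤ) (hL : 0 ≤ L) (hC : 0 ≤ C) (N : ℕ) (hs : ∀ i < N, |g (i + 1) - g i| ≤ L)
    (h0 : g 0 ≤ k + C) (hN : k - C ≤ g N) : ∃ i ≤ N, |g i - k| ≤ L + C := by
  induction N with
  | zero => exact ⟨0, le_rfl, by rw [abs_le]; omega⟩
  | succ N ih =>
    by_cases h : k - C ≤ g N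
    · obtain ⟨i, hi, h1⟩ := ih (fun i hi => hs i (by omega)) h
      exact ⟨i, by omega, h1⟩
    · have h1 := hs N (by omega)
      rw [abs_le] at h1
      exact ⟨N + 1, le_rfl, by rw [abs_le]; omega⟩

end

section

variable {E E' α β : Type} [Group E] [Group E'] [DecidableEq α] [DecidableEq β] [Finite α] [Finite β]
  {A : Fib E (FreeGroup α)} {B : Fib E' (FreeGroup β)} {f : E → E'} {h : E' → E} {R : ℤ}

omit [DecidableEq β] in
theorem CE1.nofold (c : CE1 A B f h R) : ∃ C : ℤ, 0 ≤ C ∧ ∀ a b k : ℤ, a ≤ k → k ≤ b →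
    min (B.ht (f (A.t ^ a))) (B.ht (f (A.t ^ b))) - C ≤ B.ht (f (A.t ^ k)) ∧
      B.ht (f (A.t ^ k)) ≤ max (B.ht (f (A.t ^ a))) (B.ht (f (A.t ^ b))) + C := by
  classical
  obtain ⟨X₁, hX₁, h1⟩ := c.bh (Set.range fun x : β × Bool => B.inc (FreeGroup.mk [x])) (Set.finite_range _)
  obtain ⟨X₂, hX₂, h2⟩ := c.bh _ (fin_tz B 1)
  obtain ⟨L, hL, hLb⟩ := fin_bddZ (hX₁.union hX₂) A.ht
  obtain ⟨C₅, hC₅, h5⟩ := c.hfz
  obtain ⟨C₆, hC₆, h6⟩ := c.fhz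
  obtain ⟨C₇, hC₇, h7⟩ := c.lip (L + C₅)
  have hR : 0 ≤ R := (abs_nonneg _).trans (c.rf 1 1 rfl)
  refine ⟨C₆ + R + C₇, by omega, fun a b k hak hkb => ?_⟩
  have close : ∀ w : E', |A.ht (h w) - k| ≤ L + C₅ → |B.ht (f (A.t ^ k)) - B.ht w| ≤ C₆ + R + C₇ := by
    intro w hw
    have e1 := h6 w
    have e2 := c.rf (h w) (A.t ^ A.ht (h w)) (A.ht_tz _).symm
    have e3 := h7 _ _ hw
    rw [abs_le] at *
    omega
  set z₀ := f (A.t ^ a) with hz₀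
  set e := z₀⁻¹ * f (A.t ^ b) with he
  set z₁ := z₀ * B.inc (B.hp e) with hz₁
  have hend : z₁ * B.t ^ B.ht e = f (A.t ^ b) := by
    rw [hz₁, mul_assoc, ← B.eq_dec e, he, mul_inv_cancel_left]
  have hht : B.ht e = B.ht (f (A.t ^ b)) - B.ht z₀ := by
    rw [he, B.ht_mul, B.ht_inv]
    ring
  have hz₁h : B.ht z₁ = B.ht z₀ := by rw [hz₁, B.ht_mul, B.ht_inc, add_zero]
  have g0 := h5 (A.t ^ a)
  have gN := h5 (A.t ^ b)
  rw [A.ht_tz] at g0 gN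
  rw [← hz₀] at g0
  by_cases hc : k - C₅ ≤ A.ht (h z₁)
  · -- the horizontal path
    have hstep : ∀ i < (B.hp e).toWord.length, |A.ht (h (z₀ * B.inc (FreeGroup.mk ((B.hp e).toWord.take (i + 1))))) -
        A.ht (h (z₀ * B.inc (FreeGroup.mk ((B.hp e).toWord.take i))))| ≤ L := by
      intro i hi
      have e1 : FreeGroup.mk ((B.hp e).toWord.take (i + 1)) = FreeGroup.mk ((B.hp e).toWord.take i) * FreeGroup.mk [(B.hp e).toWord[i]] := by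
        rw [mul_mk, List.take_add_one, List.getElem?_eq_getElem hi]
        rfl
      have e2 := h1 (z₀ * B.inc (FreeGroup.mk ((B.hp e).toWord.take i))) (z₀ * B.inc (FreeGroup.mk ((B.hp e).toWord.take (i + 1)))) (by
        rw [e1, B.inc_mul]
        refine ⟨(B.hp e).toWord[i], ?_⟩
        show B.inc (FreeGroup.mk [(B.hp e).toWord[i]]) = _
        group)
      have e3 := hLb _ (Or.inl e2)
      rw [A.ht_mul, A.ht_inv, neg_add_eq_sub] at e3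
      exact e3
    obtain ⟨i, _, hi⟩ := ivt (fun i => A.ht (h (z₀ * B.inc (FreeGroup.mk ((B.hp e).toWord.take i))))) L k C₅ hL hC₅
      (B.hp e).toWord.length hstep (by
        show A.ht (h (z₀ * B.inc (FreeGroup.mk (List.take 0 (B.hp e).toWord)))) ≤ k + C₅
        have e1 : (FreeGroup.mk (List.take 0 (B.hp e).toWord) : FreeGroup β) = 1 := rfl
        rw [e1, B.inc_one, mul_one]
        rw [abs_le] at g0
        omega) (by
        show k - C₅ ≤ A.ht (h (z₀ * B.inc (FreeGroup.mk (List.take (B.hp e).toWord.length (B.hp e).toWord))))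
        rw [List.take_length, mk_toWord]
        exact hc)
    have h8 := close _ hi
    rw [B.ht_mul, B.ht_inc, add_zero, abs_le] at h8
    have m1 := min_le_left (B.ht z₀) (B.ht (f (A.t ^ b)))
    have m2 := le_max_left (B.ht z₀) (B.ht (f (A.t ^ b)))
    omega
  · -- the vertical path
    obtain ⟨σ, m, hσ, hm⟩ : ∃ (σ : ℤ) (m : ℕ), (σ = 1 ∨ σ = -1) ∧ B.ht e = σ * m := by
      rcases le_total 0 (B.ht e) with h0 | h0
      · exact ⟨1, (B.ht e).toNat, Or.inl rfl, by rw [Int.toNat_of_nonneg h0, one_mul]⟩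
      · exact ⟨-1, (-B.ht e).toNat, Or.inr rfl, by rw [Int.toNat_of_nonneg (by omega)]; ring⟩
    have hstep : ∀ i < m, |A.ht (h (z₁ * B.t ^ (σ * ((i + 1 : ℕ) : ℤ)))) - A.ht (h (z₁ * B.t ^ (σ * (i : ℤ))))| ≤ L := by
      intro i _
      have e2 := h2 (z₁ * B.t ^ (σ * (i : ℤ))) (z₁ * B.t ^ (σ * ((i + 1 : ℕ) : ℤ))) ⟨σ, by
        rcases hσ with h | h <;> rw [h] <;> norm_num, by
        rw [mul_inv_rev, mul_assoc, inv_mul_cancel_left, ← zpow_neg, ← zpow_add]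
        congr 1
        push_cast
        ring⟩
      have e3 := hLb _ (Or.inr e2)
      rw [A.ht_mul, A.ht_inv, neg_add_eq_sub] at e3
      exact e3
    obtain ⟨i, him, hi⟩ := ivt (fun i => A.ht (h (z₁ * B.t ^ (σ * (i : ℤ))))) L k C₅ hL hC₅ m hstep (by
        show A.ht (h (z₁ * B.t ^ (σ * ((0 : ℕ) : ℤ)))) ≤ k + C₅
        rw [Nat.cast_zero, mul_zero, zpow_zero, mul_one]
        omega) (by
        show k - C₅ ≤ A.ht (h (z₁ * B.t ^ (σ * (m : ℤ))))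
        rw [← hm, hend]
        rw [abs_le] at gN
        omega)
    have h8 := close _ hi
    rw [B.ht_mul, B.ht_tz, hz₁h, abs_le] at h8
    have m1 := min_le_left (B.ht z₀) (B.ht (f (A.t ^ b)))
    have m2 := le_max_left (B.ht z₀) (B.ht (f (A.t ^ b)))
    have m3 := min_le_right (B.ht z₀) (B.ht (f (A.t ^ b)))
    have m4 := le_max_right (B.ht z₀) (B.ht (f (A.t ^ b)))
    rcases hσ with h | h <;> rw [h] at h8 hm <;> omega

end

end MTorus
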