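import Pool.Agent.Lib.MP_f0e889_al.Flat

/-!
# No long interval of heights is mapped to a bounded interval of heights
-/

namespace MTorus

open Filter Topology

section

variable {E E' α β : Type} [Group E] [Group E'] [DecidableEq α] [DecidableEq β] [Finite α] [Finite β]
  {A : Fib E (FreeGroup α)} {B : Fib E' (FreeGroup β)} {f : E → E'} {h : E' → E} {R : ℤ}

omit [Finite β] in
theorem norm_le_eq (x : FreeGroup β) : wt (fun _ => 1) x = (x.norm : ℝ) := by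
  have key : ∀ L : List (β × Bool), wsum (fun _ => 1) L = L.length := by
    intro L
    simp [wsum]
  unfold wt FreeGroup.norm
  rw [key]

omit [DecidableEq β] [Finite β] in
theorem inc_inv (B : Fib E' (FreeGroup β)) (x : FreeGroup β) : B.inc x⁻¹ = (B.inc x)⁻¹ := by
  have h1 := B.inc_mul x⁻¹ x
  rw [inv_mul_cancel, B.inc_one] at h1
  exact eq_inv_of_mul_eq_one_left h1.symm

omit [DecidableEq β] [Finite β] in
theorem div_dec (B : Fib E' (FreeGroup β)) (U V : E') :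
    U⁻¹ * V = B.t ^ (-B.ht U) * B.inc ((B.hp U)⁻¹ * B.hp V) * B.t ^ B.ht V := by
  conv_lhs => rw [B.eq_dec U, B.eq_dec V]
  rw [B.inc_mul, inc_inv]
  group

theorem ball_free (n : ℕ) : {w : FreeGroup β | w.norm ≤ n}.Finite := by
  have h1 : {l : List (β × Bool) | l.length ≤ n}.Finite := List.finite_length_le (β × Bool) n
  refine (h1.image fun l => FreeGroup.mk l).subset ?_
  intro w hw
  exact ⟨w.toWord, hw, FreeGroup.mk_toWord⟩

omit [Finite α] in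
theorem sub_norm (w : FreeGroup α) (i k : ℕ) (hik : i ≤ k) (hk : k ≤ w.norm) :
    ((FreeGroup.mk (w.toWord.take i))⁻¹ * FreeGroup.mk (w.toWord.take k)).norm = k - i := by
  have e1 : w.toWord.take k = w.toWord.take i ++ (w.toWord.take k).drop i := by
    have := List.take_append_drop i (w.toWord.take k)
    rw [List.take_take, min_eq_left hik] at this
    exact this.symm
  have e2 : (FreeGroup.mk (w.toWord.take i))⁻¹ * FreeGroup.mk (w.toWord.take k) = FreeGroup.mk ((w.toWord.take k).drop i) := by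
    conv_lhs => rw [e1]
    rw [← FreeGroup.mul_mk, inv_mul_cancel_left]
  have h3 : FreeGroup.IsReduced ((w.toWord.take k).drop i) := by
    have h4 : FreeGroup.IsReduced w.toWord := FreeGroup.isReduced_toWord
    exact (List.IsChain.take h4 k).drop i
  rw [e2]
  unfold FreeGroup.norm at *
  rw [FreeGroup.toWord_mk, h3.red_iff_eq.1 FreeGroup.reduce.red, List.length_drop, List.length_take]
  omega

/-- A horizontal geodesic is mapped to a quasi-geodesic of the fibre. -/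
theorem CE1.horiz (c : CE1 A B f h R) : ∃ T : ℕ, ∀ (p : E) (g : FreeGroup α),
    g.norm ≤ (T + 1) * ((B.hp ((f p)⁻¹ * f (p * A.inc g))).norm + 1) := by
  obtain ⟨Y₂, hY₂, h2⟩ := c.bf (Set.range fun x : α × Bool => A.inc (FreeGroup.mk [x])) (Set.finite_range _)
  obtain ⟨L, hL⟩ := fin_bddN ((Set.finite_Icc (-R) R).prod hY₂) fun p : ℤ × E' => ((B.θ ^ (-p.1)) (B.hp p.2)).norm
  have hZ : ((fun p : ℤ × FreeGroup β × ℤ => B.t ^ (-p.1) * B.inc p.2.1 * B.t ^ p.2.2) ''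
      ((Set.Icc (-R) R) ×ˢ ({w : FreeGroup β | w.norm ≤ 3 * L + 1} ×ˢ (Set.Icc (-R) R)))).Finite :=
    ((Set.finite_Icc (-R) R).prod ((ball_free (3 * L + 1)).prod (Set.finite_Icc (-R) R))).image _
  obtain ⟨X₄, hX₄, h4⟩ := c.proper _ hZ
  obtain ⟨T, hT⟩ := fin_bddN hX₄ fun x => (A.hp x).norm
  refine ⟨T, fun p g => ?_⟩
  set y : ℕ → FreeGroup β := fun i => B.hp ((f p)⁻¹ * f (p * A.inc (FreeGroup.mk (g.toWord.take i)))) with hy
  have hr : ∀ i, |B.ht ((f p)⁻¹ * f (p * A.inc (FreeGroup.mk (g.toWord.take i))))| ≤ R := by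
    intro i
    have := c.rf (p * A.inc (FreeGroup.mk (g.toWord.take i))) p (by rw [A.ht_mul, A.ht_inc, add_zero])
    rw [B.ht_mul, B.ht_inv, neg_add_eq_sub]
    exact this
  have hyy : ∀ i k, (y i)⁻¹ * y k = (B.θ ^ (-B.ht ((f p)⁻¹ * f (p * A.inc (FreeGroup.mk (g.toWord.take i))))))
      (B.hp ((f (p * A.inc (FreeGroup.mk (g.toWord.take i))))⁻¹ * f (p * A.inc (FreeGroup.mk (g.toWord.take k))))) := by
    intro i k
    have e : (f p)⁻¹ * f (p * A.inc (FreeGroup.mk (g.toWord.take k))) =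
        ((f p)⁻¹ * f (p * A.inc (FreeGroup.mk (g.toWord.take i)))) *
        ((f (p * A.inc (FreeGroup.mk (g.toWord.take i))))⁻¹ * f (p * A.inc (FreeGroup.mk (g.toWord.take k)))) := by group
    show (y i)⁻¹ * B.hp ((f p)⁻¹ * f (p * A.inc (FreeGroup.mk (g.toWord.take k)))) = _
    rw [e, B.hp_mul, inv_mul_cancel_left]
  have h5 := tree_path L T (B.hp ((f p)⁻¹ * f (p * A.inc g))).norm g.norm (fun i => (y i)⁻¹) (fun i hi => by
    show ((y i)⁻¹ * ((y (i + 1))⁻¹)⁻¹).norm ≤ L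
    rw [inv_inv, hyy]
    have e1 : FreeGroup.mk (g.toWord.take (i + 1)) = FreeGroup.mk (g.toWord.take i) * FreeGroup.mk [g.toWord[i]] := by
      rw [FreeGroup.mul_mk, List.take_add_one, List.getElem?_eq_getElem hi]
      rfl
    have e2 := h2 (p * A.inc (FreeGroup.mk (g.toWord.take i))) (p * A.inc (FreeGroup.mk (g.toWord.take (i + 1)))) (by
      rw [e1, A.inc_mul]
      refine ⟨g.toWord[i], ?_⟩
      show A.inc (FreeGroup.mk [g.toWord[i]]) = _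
      group)
    exact hL (_, _) ⟨abs_le.1 (hr i), e2⟩) (fun i k hik hk hn => by
    change ((y i)⁻¹ * ((y k)⁻¹)⁻¹).norm ≤ 3 * L + 1 at hn
    rw [inv_inv] at hn
    have e3 : (f (p * A.inc (FreeGroup.mk (g.toWord.take i))))⁻¹ * f (p * A.inc (FreeGroup.mk (g.toWord.take k))) =
        B.t ^ (-B.ht ((f p)⁻¹ * f (p * A.inc (FreeGroup.mk (g.toWord.take i))))) * B.inc ((y i)⁻¹ * y k) *
        B.t ^ (B.ht ((f p)⁻¹ * f (p * A.inc (FreeGroup.mk (g.toWord.take k))))) := by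
      have e6 : (f (p * A.inc (FreeGroup.mk (g.toWord.take i))))⁻¹ * f (p * A.inc (FreeGroup.mk (g.toWord.take k))) =
        ((f p)⁻¹ * f (p * A.inc (FreeGroup.mk (g.toWord.take i))))⁻¹ *
        ((f p)⁻¹ * f (p * A.inc (FreeGroup.mk (g.toWord.take k)))) := by group
      rw [e6]
      exact div_dec B _ _
    have e7 := h4 (p * A.inc (FreeGroup.mk (g.toWord.take i))) (p * A.inc (FreeGroup.mk (g.toWord.take k))) (by
      rw [e3]
      exact ⟨(_, (y i)⁻¹ * y k, _), ⟨abs_le.1 (hr i), hn, abs_le.1 (hr k)⟩, rfl⟩)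
    have e8 := hT _ e7
    have e9 : (p * A.inc (FreeGroup.mk (g.toWord.take i)))⁻¹ * (p * A.inc (FreeGroup.mk (g.toWord.take k))) =
        A.inc ((FreeGroup.mk (g.toWord.take i))⁻¹ * FreeGroup.mk (g.toWord.take k)) := by
      rw [A.inc_mul, inc_inv]
      group
    have e10 : (A.hp ((p * A.inc (FreeGroup.mk (g.toWord.take i)))⁻¹ * (p * A.inc (FreeGroup.mk (g.toWord.take k))))).norm ≤ T := e8
    rw [e9, A.hp_inc, sub_norm g i k hik hk] at e10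
    omega) (by
    show ((y 0)⁻¹ * ((y g.norm)⁻¹)⁻¹).norm ≤ _
    have y0 : y 0 = 1 := by
      show B.hp ((f p)⁻¹ * f (p * A.inc (FreeGroup.mk (List.take 0 g.toWord)))) = 1
      have e1 : (FreeGroup.mk (List.take 0 g.toWord) : FreeGroup α) = 1 := rfl
      rw [e1, A.inc_one, mul_one, inv_mul_cancel, B.hp_one]
    have yN : y g.norm = B.hp ((f p)⁻¹ * f (p * A.inc g)) := by
      show B.hp ((f p)⁻¹ * f (p * A.inc (FreeGroup.mk (List.take g.norm g.toWord)))) = _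
      have e1 : List.take g.norm g.toWord = g.toWord := List.take_length
      rw [e1, FreeGroup.mk_toWord]
    rw [y0, yN, inv_inv, inv_one, one_mul])
  exact h5

/-- The linear bound for vertical strips over an interval of heights mapped to bounded heights. -/
theorem CE1.linear (c : CE1 A B f h R) (hl : Lip B.θ (wt fun _ => 1)) (s : FreeGroup α) (D : ℤ) :
    ∃ C : ℝ, 0 ≤ C ∧ ∀ (a : ℤ) (n : ℕ),
      (∀ i : ℕ, i ≤ n → |B.ht (f (A.t ^ (a + i))) - B.ht (f (A.t ^ a))| ≤ D) →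
      wt (fun _ => 1) (B.hp ((f (A.t ^ (a + n)))⁻¹ * f (A.t ^ a * (A.inc s * A.t ^ (n : ℤ))))) ≤ C * (n + 1) := by
  obtain ⟨Y, hY, h1⟩ := c.bf _ (fin_tz A 1)
  obtain ⟨Y₀, hY₀, h0⟩ := c.bf {A.inc s} (Set.finite_singleton _)
  have hW : Len (wt (fun _ : β => 1)) := wt_len _
  obtain ⟨C₀, hC₀, b0⟩ := fin_bdd hY₀ fun x => wt (fun _ => 1) (B.hp x)
  obtain ⟨Cu, hCu, bu⟩ := fin_bdd ((Set.finite_Icc (-(D + R)) (D + R)).prod hY)
    fun p : ℤ × E' => wt (fun _ => 1) ((B.θ ^ (-p.1)) (B.hp p.2))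
  obtain ⟨L, hL, bL⟩ := hl.zpow hW D
  have hR : 0 ≤ R := (abs_nonneg _).trans (c.rf 1 1 rfl)
  have hL0 : 0 ≤ L := zero_le_one.trans hL
  refine ⟨L * (2 * Cu + C₀), by positivity, fun a n hflat => ?_⟩
  set z₀ := f (A.t ^ a) with hz₀
  have hD : 0 ≤ D := (abs_nonneg _).trans (hflat 0 (Nat.zero_le _))
  have hp : ∀ i : ℕ, i ≤ n → wt (fun _ => 1) (B.hp (z₀⁻¹ * f (A.t ^ (a + i)))) ≤ Cu * i := by
    intro i
    induction i with
    | zero =>
      intro _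
      rw [Nat.cast_zero, add_zero, ← hz₀, inv_mul_cancel, B.hp_one, hW.one]
      simp
    | succ i ih =>
      intro hi
      have ih' := ih (by omega)
      have e1 : z₀⁻¹ * f (A.t ^ (a + ((i + 1 : ℕ) : ℤ))) =
          (z₀⁻¹ * f (A.t ^ (a + (i : ℤ)))) * ((f (A.t ^ (a + (i : ℤ))))⁻¹ * f (A.t ^ (a + ((i + 1 : ℕ) : ℤ)))) := by group
      have m1 := h1 (A.t ^ (a + (i : ℤ))) (A.t ^ (a + ((i + 1 : ℕ) : ℤ))) ⟨1, by norm_num, by
        rw [← zpow_neg, ← zpow_add]; congr 1; push_cast; ring⟩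
      have r1 : |B.ht (z₀⁻¹ * f (A.t ^ (a + (i : ℤ))))| ≤ D + R := by
        have := hflat i (by omega)
        rw [B.ht_mul, B.ht_inv, neg_add_eq_sub]
        omega
      have k1 : wt (fun _ => 1) ((B.θ ^ (-B.ht (z₀⁻¹ * f (A.t ^ (a + (i : ℤ))))))
          (B.hp ((f (A.t ^ (a + (i : ℤ))))⁻¹ * f (A.t ^ (a + ((i + 1 : ℕ) : ℤ)))))) ≤ Cu := bu (_, _) ⟨abs_le.1 r1, m1⟩
      have hh : Cu * (((i + 1 : ℕ)) : ℝ) = Cu * i + Cu := by push_cast; ring
      rw [e1, B.hp_mul, hh]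
      exact (hW.mul _ _).trans (add_le_add ih' k1)
  have hq : ∀ i : ℕ, i ≤ n → wt (fun _ => 1) (B.hp (z₀⁻¹ * f (A.t ^ a * (A.inc s * A.t ^ (i : ℤ))))) ≤ C₀ + Cu * i := by
    intro i
    induction i with
    | zero =>
      intro _
      rw [Nat.cast_zero, zpow_zero, mul_one]
      have := b0 _ (h0 (A.t ^ a) (A.t ^ a * A.inc s) (by rw [inv_mul_cancel_left]; rfl))
      have h' : wt (fun _ => 1) (B.hp ((f (A.t ^ a))⁻¹ * f (A.t ^ a * A.inc s))) ≤ C₀ := this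
      simpa using h'
    | succ i ih =>
      intro hi
      have ih' := ih (by omega)
      have e1 : z₀⁻¹ * f (A.t ^ a * (A.inc s * A.t ^ ((i + 1 : ℕ) : ℤ))) =
          (z₀⁻¹ * f (A.t ^ a * (A.inc s * A.t ^ (i : ℤ)))) *
          ((f (A.t ^ a * (A.inc s * A.t ^ (i : ℤ))))⁻¹ * f (A.t ^ a * (A.inc s * A.t ^ ((i + 1 : ℕ) : ℤ)))) := by group
      have m1 := h1 (A.t ^ a * (A.inc s * A.t ^ (i : ℤ))) (A.t ^ a * (A.inc s * A.t ^ ((i + 1 : ℕ) : ℤ))) ⟨1, by norm_num, by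
        push_cast
        rw [zpow_add]
        group⟩
      have r1 : |B.ht (z₀⁻¹ * f (A.t ^ a * (A.inc s * A.t ^ (i : ℤ))))| ≤ D + R := by
        have e2 := hflat i (by omega)
        have e3 := c.rf (A.t ^ a * (A.inc s * A.t ^ (i : ℤ))) (A.t ^ (a + (i : ℤ))) (by
          rw [A.ht_mul, A.ht_mul, A.ht_inc, A.ht_tz, A.ht_tz, A.ht_tz]; ring)
        rw [B.ht_mul, B.ht_inv, neg_add_eq_sub]
        rw [abs_le] at *
        omega
      have k1 : wt (fun _ => 1) ((B.θ ^ (-B.ht (z₀⁻¹ * f (A.t ^ a * (A.inc s * A.t ^ (i : ℤ))))))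
          (B.hp ((f (A.t ^ a * (A.inc s * A.t ^ (i : ℤ))))⁻¹ * f (A.t ^ a * (A.inc s * A.t ^ ((i + 1 : ℕ) : ℤ)))))) ≤ Cu :=
        bu (_, _) ⟨abs_le.1 r1, m1⟩
      have hh : C₀ + Cu * (((i + 1 : ℕ)) : ℝ) = (C₀ + Cu * i) + Cu := by push_cast; ring
      rw [e1, B.hp_mul, hh]
      exact (hW.mul _ _).trans (add_le_add ih' k1)
  have e5 : (f (A.t ^ (a + (n : ℤ))))⁻¹ * f (A.t ^ a * (A.inc s * A.t ^ (n : ℤ))) =
      (z₀⁻¹ * f (A.t ^ (a + (n : ℤ))))⁻¹ * (z₀⁻¹ * f (A.t ^ a * (A.inc s * A.t ^ (n : ℤ)))) := by group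
  have r5 : |B.ht (z₀⁻¹ * f (A.t ^ (a + (n : ℤ))))| ≤ D := by
    have := hflat n le_rfl
    rw [B.ht_mul, B.ht_inv, neg_add_eq_sub]
    exact this
  rw [e5, B.hp_mul, B.hp_inv, B.ht_inv, neg_neg, ← _root_.map_mul]
  refine (bL _ r5 _).trans ?_
  have h6 := hW.mul (B.hp (z₀⁻¹ * f (A.t ^ (a + (n : ℤ)))))⁻¹ (B.hp (z₀⁻¹ * f (A.t ^ a * (A.inc s * A.t ^ (n : ℤ)))))
  rw [wt_inv] at h6
  have h7 := hp n le_rfl
  have h8 := hq n le_rfl
  have h9 : wt (fun _ => 1) ((B.hp (z₀⁻¹ * f (A.t ^ (a + (n : ℤ)))))⁻¹ * B.hp (z₀⁻¹ * f (A.t ^ a * (A.inc s * A.t ^ (n : ℤ))))) ≤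
      (2 * Cu + C₀) * (n + 1) := by
    have : (0 : ℝ) ≤ n := Nat.cast_nonneg n
    nlinarith
  have h10 := mul_le_mul_of_nonneg_left h9 hL0
  linarith

theorem CE1.noflat (c : CE1 A B f h R) (hl : Lip B.θ (wt fun _ => 1)) (s : FreeGroup α) {c₁ κ : ℝ} (hc₁ : 0 < c₁)
    (hκ : 1 < κ) (hg : ∀ n : ℕ, c₁ * κ ^ n ≤ wt (fun _ => 1) ((A.θ ^ (n : ℤ)) s)) (D : ℤ) :
    ∃ n : ℕ, ∀ a : ℤ, ∃ i : ℕ, i ≤ n ∧ D < |B.ht (f (A.t ^ (a + i))) - B.ht (f (A.t ^ a))| := by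
  obtain ⟨C, hC, h1⟩ := c.linear hl s D
  obtain ⟨T, hT⟩ := c.horiz
  have hκ0 : 0 < κ := by linarith
  have lim : Tendsto (fun n : ℕ => ((T + 1) * C) * ((n : ℝ) ^ 1 * (κ⁻¹) ^ n) + ((T + 1) * C + (T + 1)) * (κ⁻¹) ^ n)
      atTop (𝓝 (((T + 1) * C) * 0 + ((T + 1) * C + (T + 1)) * 0)) := by
    have hk : |κ⁻¹| < 1 := by
      rw [abs_of_pos (inv_pos.2 hκ0)]
      exact inv_lt_one_of_one_lt₀ hκ
    exact ((tendsto_pow_const_mul_const_pow_of_abs_lt_one 1 hk).const_mul _).add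
      ((tendsto_pow_atTop_nhds_zero_of_abs_lt_one hk).const_mul _)
  rw [mul_zero, mul_zero, add_zero] at lim
  obtain ⟨n, hn⟩ := (lim.eventually (gt_mem_nhds hc₁)).exists
  refine ⟨n, fun a => ?_⟩
  by_contra hcon
  push Not at hcon
  have h2 := h1 a n hcon
  have e1 : A.t ^ a * (A.inc s * A.t ^ (n : ℤ)) = A.t ^ (a + (n : ℤ)) * A.inc ((A.θ ^ (n : ℤ)) s) := by
    have e2 : A.inc ((A.θ ^ (n : ℤ)) s) = A.t ^ (-(n : ℤ)) * (A.inc s * A.t ^ (n : ℤ)) := by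
      refine A.ext _ _ ?_ ?_
      · rw [A.hp_inc, A.conj_hp]
      · rw [A.ht_inc, A.ht_mul, A.ht_mul, A.ht_inc, A.ht_tz, A.ht_tz]; ring
    rw [e2, zpow_add, zpow_neg]
    group
  rw [e1] at h2
  have h3 := hT (A.t ^ (a + (n : ℤ))) ((A.θ ^ (n : ℤ)) s)
  have h4 : (((A.θ ^ (n : ℤ)) s).norm : ℝ) ≤ (T + 1) * (wt (fun _ => 1)
      (B.hp ((f (A.t ^ (a + (n : ℤ))))⁻¹ * f (A.t ^ (a + (n : ℤ)) * A.inc ((A.θ ^ (n : ℤ)) s)))) + 1) := by
    rw [norm_le_eq]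
    exact_mod_cast h3
  rw [← norm_le_eq] at h4
  have h5 := (hg n).trans h4
  have h6 : c₁ * κ ^ n ≤ (T + 1) * (C * (n + 1) + 1) := by
    refine h5.trans (mul_le_mul_of_nonneg_left (by linarith) (by positivity))
  have h7 : (κ⁻¹) ^ n * κ ^ n = 1 := by rw [← mul_pow, inv_mul_cancel₀ hκ0.ne', one_pow]
  have h8 := mul_le_mul_of_nonneg_left h6 (by positivity : 0 ≤ (κ⁻¹) ^ n)
  have h9 : (κ⁻¹) ^ n * (c₁ * κ ^ n) = c₁ := by
    rw [mul_left_comm, h7, mul_one]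
  rw [h9, pow_one] at *
  nlinarith

end

end MTorus
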