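import Pool.Agent.Lib.MP_f0e889_al.Fib
import Pool.Agent.Lib.MP_f0e889_al.Defs

/-!
# Word metrics: elementary facts
-/

namespace MTorus

section

variable {E : Type} [Group E] {S : Set E}

private theorem wl_set (hS : Subgroup.closure S = ⊤) (g : E) :
    {n | ∃ l : List E, (∀ x ∈ l, x ∈ S ∨ x⁻¹ ∈ S) ∧ l.length = n ∧ l.prod = g}.Nonempty := by
  have hg : g ∈ Subgroup.closure S := by rw [hS]; trivial
  rw [← Subgroup.mem_toSubmonoid, Subgroup.closure_toSubmonoid] at hg
  obtain ⟨l, h1, h2⟩ := Submonoid.exists_list_of_mem_closure hg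
  exact ⟨l.length, l, fun x hx => h1 x hx, rfl, h2⟩

theorem wl_spec (hS : Subgroup.closure S = ⊤) (g : E) :
    ∃ l : List E, (∀ x ∈ l, x ∈ S ∨ x⁻¹ ∈ S) ∧ l.length = wl S g ∧ l.prod = g := Nat.sInf_mem (wl_set hS g)

theorem wl_le {l : List E} (hl : ∀ x ∈ l, x ∈ S ∨ x⁻¹ ∈ S) : wl S l.prod ≤ l.length :=
  Nat.sInf_le ⟨l, hl, rfl, rfl⟩

theorem wl_mul (hS : Subgroup.closure S = ⊤) (x y : E) : wl S (x * y) ≤ wl S x + wl S y := by
  obtain ⟨l, h1, h2, h3⟩ := wl_spec hS x
  obtain ⟨l', h1', h2', h3'⟩ := wl_spec hS y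
  have h := wl_le (S := S) (l := l ++ l') (fun z hz => by
    rcases List.mem_append.1 hz with hz | hz
    · exact h1 z hz
    · exact h1' z hz)
  rw [List.prod_append, h3, h3', List.length_append, h2, h2'] at h
  exact h

theorem wl_inv_le (hS : Subgroup.closure S = ⊤) (x : E) : wl S x⁻¹ ≤ wl S x := by
  obtain ⟨l, h1, h2, h3⟩ := wl_spec hS x
  have h := wl_le (S := S) (l := (l.map fun z => z⁻¹).reverse) (fun z hz => by
    rw [List.mem_reverse, List.mem_map] at hz
    obtain ⟨w, hw, rfl⟩ := hz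
    rw [inv_inv]
    exact (h1 w hw).symm)
  rw [← List.prod_inv_reverse, h3, List.length_reverse, List.length_map, h2] at h
  exact h

theorem wd_comm (hS : Subgroup.closure S = ⊤) (x y : E) : wd S x y = wd S y x := by
  have h1 := wl_inv_le hS (x⁻¹ * y)
  have h2 := wl_inv_le hS (y⁻¹ * x)
  rw [mul_inv_rev, inv_inv] at h1 h2
  exact le_antisymm h2 h1

theorem wd_tri (hS : Subgroup.closure S = ⊤) (x y z : E) : wd S x z ≤ wd S x y + wd S y z := by
  have h := wl_mul hS (x⁻¹ * y) (y⁻¹ * z)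
  have e : x⁻¹ * y * (y⁻¹ * z) = x⁻¹ * z := by group
  rw [e] at h
  exact h

theorem ball_fin (hS : Subgroup.closure S = ⊤) (hf : S.Finite) (n : ℕ) : {g : E | wl S g ≤ n}.Finite := by
  have key : ∀ k : ℕ, {g : E | ∃ l : List E, (∀ x ∈ l, x ∈ S ∨ x⁻¹ ∈ S) ∧ l.length = k ∧ l.prod = g}.Finite := by
    intro k
    induction k with
    | zero =>
      refine (Set.finite_singleton (1 : E)).subset ?_
      rintro g ⟨l, _, h2, h3⟩
      rw [List.length_eq_zero_iff.1 h2, List.prod_nil] at h3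
      exact h3.symm
    | succ k ih =>
      have hfin : (S ∪ S⁻¹).Finite := hf.union hf.inv
      refine ((hfin.prod ih).image fun p : E × E => p.1 * p.2).subset ?_
      rintro g ⟨l, h1, h2, h3⟩
      obtain ⟨x, l', rfl⟩ := List.exists_cons_of_length_eq_add_one h2
      refine ⟨(x, l'.prod), ⟨?_, ?_⟩, ?_⟩
      · rcases h1 x List.mem_cons_self with h | h
        · exact Or.inl h
        · exact Or.inr h
      · refine ⟨l', fun z hz => h1 z (List.mem_cons_of_mem _ hz), ?_, rfl⟩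
        rw [List.length_cons] at h2
        omega
      · rw [← h3, List.prod_cons]
  refine ((Set.finite_Iic n).biUnion fun k _ => key k).subset ?_
  intro g hg
  obtain ⟨l, h1, h2, h3⟩ := wl_spec hS g
  refine Set.mem_biUnion (x := wl S g) hg ⟨l, h1, h2, h3⟩

end

theorem fin_bddN {α : Type} {X : Set α} (hX : X.Finite) (g : α → ℕ) : ∃ C, ∀ x ∈ X, g x ≤ C := by
  obtain ⟨C, hC⟩ := (hX.image g).bddAbove
  exact ⟨C, fun x hx => hC ⟨x, hx, rfl⟩⟩

end MTorus
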