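import Pool.Agent.Lib.MP_f0e889_al.Main
import Pool.Agent.Lib.MP_f0e889_al.Qi

/-!
# Weighted word lengths, the growth of the two automorphisms
-/

namespace MTorus

open FreeGroup

/-- The mapping torus as a fibred group. -/
noncomputable def sd (H : Type) [Group H] (ψ : MulAut H) : Fib (MT H ψ) H where
  inc := SemidirectProduct.inl
  t := SemidirectProduct.inr (Multiplicative.ofAdd 1)
  ht x := Multiplicative.toAdd x.right
  hp x := x.left
  θ := ψ⁻¹
  ht_mul x y := by rw [SemidirectProduct.mul_right, toAdd_mul]
  hp_mul x y := by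
    rw [SemidirectProduct.mul_left, zpowersHom_apply, inv_zpow', neg_neg]
  ht_inc x := by rw [SemidirectProduct.right_inl, toAdd_one]
  hp_inc x := SemidirectProduct.left_inl x
  ht_t := by rw [SemidirectProduct.right_inr, toAdd_ofAdd]
  hp_t := SemidirectProduct.left_inr _
  ext x y h1 h2 := SemidirectProduct.ext h1 (Multiplicative.toAdd.injective h2)

theorem mem_fibre (H : Type) [Group H] (ψ : MulAut H) (x : MT H ψ) : x ∈ fibre H ψ ↔ (sd H ψ).ht x = 0 := by
  unfold fibre
  rw [SemidirectProduct.range_inl_eq_ker_rightHom, MonoidHom.mem_ker]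
  show x.right = 1 ↔ Multiplicative.toAdd x.right = 0
  exact toAdd_eq_zero.symm

section

variable {α β : Type} [DecidableEq α] [DecidableEq β]

/-- The weight of a word. -/
def wsum (w : α → ℕ) (L : List (α × Bool)) : ℕ := (L.map fun p => w p.1).sum

/-- The weighted word length. -/
noncomputable def wt (w : α → ℕ) (x : FreeGroup α) : ℝ := (wsum w x.toWord : ℕ)

omit [DecidableEq α] in
theorem wsum_append (w : α → ℕ) (L L' : List (α × Bool)) : wsum w (L ++ L') = wsum w L + wsum w L' := by
  unfold wsum
  rw [List.map_append, List.sum_append]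

omit [DecidableEq α] in
theorem wsum_cons (w : α → ℕ) (p : α × Bool) (L : List (α × Bool)) : wsum w (p :: L) = w p.1 + wsum w L := by
  unfold wsum
  rw [List.map_cons, List.sum_cons]

omit [DecidableEq α] in
theorem wsum_sublist (w : α → ℕ) {L L' : List (α × Bool)} (h : L.Sublist L') : wsum w L ≤ wsum w L' := by
  induction h with
  | slnil => exact le_rfl
  | cons a _ ih => rw [wsum_cons]; omega
  | cons_cons a _ ih => rw [wsum_cons, wsum_cons]; omega

theorem wt_len (w : α → ℕ) : Len (wt w) := by
  refine ⟨?_, fun x => Nat.cast_nonneg _, fun x y => ?_⟩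
  · unfold wt
    rw [toWord_one]
    simp [wsum]
  · unfold wt
    rw [← Nat.cast_add, ← wsum_append]
    exact_mod_cast wsum_sublist w (toWord_mul_sublist x y)

theorem wt_inv (w : α → ℕ) (x : FreeGroup α) : wt w x⁻¹ = wt w x := by
  have key : ∀ L : List (α × Bool), wsum w (invRev L) = wsum w L := by
    intro L
    induction L with
    | nil => rfl
    | cons p L ih =>
      rw [invRev_cons, wsum_append, ih, wsum_cons]
      have : wsum w (invRev [p]) = w p.1 := by simp [wsum, invRev]
      omega
  unfold wt
  rw [toWord_inv, key]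

theorem wt_mk_le (w : α → ℕ) (L : List (α × Bool)) : wt w (mk L) ≤ wsum w L := by
  unfold wt
  rw [toWord_mk]
  exact_mod_cast wsum_sublist w reduce.red.sublist

theorem wt_step {κ : ℝ} (w : α → ℕ) (w' : β → ℕ) (θ : FreeGroup α →* FreeGroup β)
    (h : ∀ a, wt w' (θ (of a)) ≤ κ * w a) (x : FreeGroup α) : wt w' (θ x) ≤ κ * wt w x := by
  have key : ∀ L : List (α × Bool), wt w' (θ (mk L)) ≤ κ * wsum w L := by
    intro L
    induction L with
    | nil =>
      have e : (mk ([] : List (α × Bool))) = 1 := rfl
      rw [e, _root_.map_one, (wt_len w').one]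
      simp [wsum]
    | cons p L ih =>
      have e : mk (p :: L) = mk [p] * mk L := by rw [mul_mk]; rfl
      have hp : wt w' (θ (mk [p])) ≤ κ * w p.1 := by
        obtain ⟨a, b⟩ := p
        cases b
        · have e2 : (mk [(a, false)] : FreeGroup α) = (of a)⁻¹ := rfl
          rw [e2, _root_.map_inv, wt_inv]
          exact h a
        · exact h a
      rw [e, _root_.map_mul, wsum_cons, Nat.cast_add, mul_add]
      exact ((wt_len w').mul _ _).trans (add_le_add hp ih)
  have := key x.toWord
  rw [mk_toWord] at this
  exact this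

theorem wt_gen [Finite α] (w : α → ℕ) (hw : ∀ a, 1 ≤ w a) : Gen (wt w) := by
  refine ⟨Set.range (fun p : α × Bool => (mk [p] : FreeGroup α)), Set.finite_range _, fun y => ?_⟩
  refine ⟨y.toWord.map fun p => mk [p], ?_, ?_, ?_⟩
  · intro z hz
    obtain ⟨p, _, rfl⟩ := List.mem_map.1 hz
    exact ⟨p, rfl⟩
  · have key : ∀ L : List (α × Bool), (L.map fun p => (mk [p] : FreeGroup α)).prod = mk L := by
      intro L
      induction L with
      | nil => rfl
      | cons p L ih => rw [List.map_cons, List.prod_cons, ih, mul_mk]; rfl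
    rw [key, mk_toWord]
  · have key : ∀ L : List (α × Bool), L.length ≤ wsum w L := by
      intro L
      induction L with
      | nil => exact Nat.zero_le _
      | cons p L ih =>
        rw [wsum_cons, List.length_cons]
        have := hw p.1
        omega
    rw [List.length_map]
    unfold wt
    exact_mod_cast key _

end

end MTorus
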