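import Pool.Agent.Lib.MP_f0e889_al.Gam
/-!
# The growth of the two automorphisms and of their inverses
-/

namespace MTorus

open FreeGroup

theorem phi3_of : phi3 (of 0) = of 1 ∧ phi3 (of 1) = of 2 ∧ phi3 (of 2) = of 0 * of 1 := by
  refine ⟨?_, ?_, ?_⟩ <;> simp [phi3]

theorem phi3_inv : phi3⁻¹ (of 0) = of 2 * (of 0)⁻¹ ∧ phi3⁻¹ (of 1) = of 0 ∧ phi3⁻¹ (of 2) = of 1 := by
  refine ⟨?_, ?_, ?_⟩ <;> simp [phi3, MulAut.inv_def]

theorem phi5_of : phi5 (of 0) = of 1 ∧ phi5 (of 1) = of 2 ∧ phi5 (of 2) = of 0 * of 1 ∧ phi5 (of 3) = of 4 * of 0 ∧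
    phi5 (of 4) = of 4 * of 3 := by
  refine ⟨?_, ?_, ?_, ?_, ?_⟩ <;> simp [phi5]

theorem phi5_inv : phi5⁻¹ (of 0) = of 2 * (of 0)⁻¹ ∧ phi5⁻¹ (of 1) = of 0 ∧ phi5⁻¹ (of 2) = of 1 ∧
    phi5⁻¹ (of 3) = of 2 * (of 0)⁻¹ * (of 3)⁻¹ * of 4 ∧ phi5⁻¹ (of 4) = of 3 * of 0 * (of 2)⁻¹ := by
  refine ⟨?_, ?_, ?_, ?_, ?_⟩ <;> simp [phi5, MulAut.inv_def]

/-- σ -/
def sg (n : ℕ) : Fin 3 := Fin.ofNat 3 (2 * n)

/-- The words `ψ^n (a)` for `ψ = φ'⁻¹`. -/
def Lw : ℕ → List (Fin 3 × Bool)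
  | 0 => [(0, true)]
  | 1 => [(2, true), (0, false)]
  | 2 => [(1, true), (0, true), (2, false)]
  | n + 3 => Lw n ++ invRev (Lw (n + 2))

theorem Lw_succ (n : ℕ) : Lw (n + 3) = Lw n ++ invRev (Lw (n + 2)) := by rw [Lw]

theorem Lw_spec : ∀ n : ℕ, ((phi3⁻¹) ^ (n : ℤ)) (of 0) = mk (Lw n)
  | 0 => rfl
  | 1 => by
    rw [Nat.cast_one, zpow_one, phi3_inv.1]
    rfl
  | 2 => by
    have e : (((2 : ℕ) : ℤ)) = 1 + 1 := rfl
    rw [e, zpow_add, zpow_one, MulAut.mul_apply, phi3_inv.1, _root_.map_mul, _root_.map_inv, phi3_inv.1, phi3_inv.2.2]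
    rfl
  | n + 3 => by
    have h1 := Lw_spec n
    have h2 := Lw_spec (n + 2)
    have e1 : (((n + 3 : ℕ) : ℤ)) = ((n + 2 : ℕ) : ℤ) + 1 := by push_cast; ring
    have e2 : (((n + 2 : ℕ) : ℤ)) = (n : ℤ) + 1 + 1 := by push_cast; ring
    have e3 : ((phi3⁻¹) ^ (((n + 2 : ℕ) : ℤ))) (of 2) = mk (Lw n) := by
      rw [e2, zpow_add_one, zpow_add_one, MulAut.mul_apply, MulAut.mul_apply, phi3_inv.2.2, phi3_inv.2.1, h1]
    rw [e1, zpow_add_one, MulAut.mul_apply, phi3_inv.1, _root_.map_mul, _root_.map_inv, h2, e3, Lw_succ, inv_mk, mul_mk]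

theorem sg_add (n : ℕ) : sg (n + 3) = sg n := by
  unfold sg
  ext
  show 2 * (n + 3) % 3 = 2 * n % 3
  omega

theorem sg_ne (n : ℕ) : sg (n + 2) ≠ sg n := by
  unfold sg
  intro h
  have h1 : 2 * (n + 2) % 3 = 2 * n % 3 := congrArg Fin.val h
  omega

theorem invRev_head? (L : List (Fin 3 × Bool)) : (invRev L).head? = L.getLast?.map fun p => (p.1, !p.2) := by
  unfold invRev
  rw [List.head?_reverse, List.getLast?_map]

theorem invRev_getLast? (L : List (Fin 3 × Bool)) : (invRev L).getLast? = L.head?.map fun p => (p.1, !p.2) := by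
  unfold invRev
  rw [List.getLast?_reverse, List.head?_map]

/-- The first letter of `Lw n`, the last letter of `Lw (n+1)`. -/
theorem Lw_head : ∀ n : ℕ, (Lw n).head? = some (sg n, true)
  | 0 => rfl
  | 1 => rfl
  | 2 => rfl
  | n + 3 => by
    rw [Lw_succ, List.head?_append, Lw_head n, sg_add]
    rfl

theorem Lw_last : ∀ n : ℕ, (Lw (n + 1)).getLast? = some (sg n, false)
  | 0 => rfl
  | 1 => rfl
  | n + 2 => by
    rw [Lw_succ, List.getLast?_append, invRev_getLast?, Lw_head (n + 2)]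
    rfl

theorem invRev_reduced {L : List (Fin 3 × Bool)} (h : IsReduced L) : IsReduced (invRev L) := by
  have e : (mk L : FreeGroup (Fin 3)).toWord = L := by
    rw [toWord_mk]
    exact (h.red_iff_eq.1 reduce.red)
  have e2 : invRev L = ((mk L : FreeGroup (Fin 3))⁻¹).toWord := by rw [toWord_inv, e]
  rw [e2]
  exact isReduced_toWord

theorem Lw_red : ∀ n : ℕ, IsReduced (Lw n)
  | 0 => IsReduced.singleton
  | 1 => isReduced_cons_cons.2 ⟨by decide, IsReduced.singleton⟩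
  | 2 => isReduced_cons_cons.2 ⟨by decide, isReduced_cons_cons.2 ⟨by decide, IsReduced.singleton⟩⟩
  | n + 3 => by
    rw [Lw_succ]
    show List.IsChain _ _
    rw [List.isChain_append]
    refine ⟨Lw_red n, invRev_reduced (Lw_red (n + 2)), fun x hx y hy => ?_⟩
    rw [invRev_head?, Lw_last (n + 1)] at hy
    have hy' : y = (sg (n + 1), true) := by
      have : some (sg (n + 1), !false) = some y := hy
      exact (Option.some.inj this).symm
    subst hy'
    cases n with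
    | zero =>
      have hx' : x = (0, true) := by
        have : some ((0 : Fin 3), true) = some x := hx
        exact (Option.some.inj this).symm
      subst hx'
      intro _
      rfl
    | succ n =>
      rw [Lw_last n] at hx
      have hx' : x = (sg n, false) := (Option.some.inj hx).symm
      subst hx'
      intro h
      exact absurd h.symm (sg_ne n)

theorem Lw_len : ∀ n : ℕ, ((10 : ℝ) / 7) ^ n ≤ (Lw n).length
  | 0 => by simp [Lw]
  | 1 => by simp [Lw]; norm_num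
  | 2 => by simp [Lw]; norm_num
  | n + 3 => by
    have h1 := Lw_len n
    have h2 := Lw_len (n + 2)
    rw [Lw_succ, List.length_append, invRev_length, Nat.cast_add]
    have h3 : ((10 : ℝ) / 7) ^ (n + 3) = (10 / 7) ^ 3 * (10 / 7) ^ n := by rw [pow_add]; ring
    have h4 : ((10 : ℝ) / 7) ^ (n + 2) = (10 / 7) ^ 2 * (10 / 7) ^ n := by rw [pow_add]; ring
    have h5 : (0 : ℝ) < (10 / 7) ^ n := by positivity
    rw [h4] at h2
    rw [h3]
    nlinarith

theorem growth3 (n : ℕ) : 1 * ((10 : ℝ) / 7) ^ n ≤ wt (fun _ => 1) (((phi3⁻¹) ^ (n : ℤ)) (of 0)) := by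
  rw [one_mul, Lw_spec]
  unfold wt
  rw [toWord_mk, (Lw_red n).red_iff_eq.1 reduce.red]
  have h : wsum (fun _ => 1) (Lw n) = (Lw n).length := by simp [wsum]
  rw [h]
  exact Lw_len n

theorem wt_of_le {α : Type} [DecidableEq α] (w : α → ℕ) (L : List (α × Bool)) (c : ℝ) (h : (wsum w L : ℝ) ≤ c) :
    wt w (mk L) ≤ c := (wt_mk_le w L).trans h

/-! ### the Lipschitz constants -/

theorem step3 (x : FreeGroup (Fin 3)) : wt ![9, 12, 16] (phi3 x) ≤ 4 / 3 * wt ![9, 12, 16] x := by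
  refine wt_step ![9, 12, 16] ![9, 12, 16] phi3.toMonoidHom (fun a => ?_) x
  obtain ⟨h0, h1, h2⟩ := phi3_of
  fin_cases a
  · show wt _ (phi3 (of 0)) ≤ _
    rw [h0]
    refine wt_of_le _ [(1, true)] _ ?_
    simp [wsum]; norm_num
  · show wt _ (phi3 (of 1)) ≤ _
    rw [h1]
    refine wt_of_le _ [(2, true)] _ ?_
    simp [wsum]; norm_num
  · show wt _ (phi3 (of 2)) ≤ _
    rw [h2]
    refine wt_of_le _ [(0, true), (1, true)] _ ?_
    simp [wsum]; norm_num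

theorem lip3 : Lip (phi3⁻¹) (wt (fun _ : Fin 3 => 1)) := by
  refine ⟨2, by norm_num, fun x => ⟨?_, ?_⟩⟩
  · refine wt_step _ _ (phi3⁻¹).toMonoidHom (fun a => ?_) x
    obtain ⟨h0, h1, h2⟩ := phi3_inv
    fin_cases a
    · show wt _ (phi3⁻¹ (of 0)) ≤ _
      rw [h0]
      refine wt_of_le _ [(2, true), (0, false)] _ ?_
      simp [wsum]
    · show wt _ (phi3⁻¹ (of 1)) ≤ _
      rw [h1]
      refine wt_of_le _ [(0, true)] _ ?_
      simp [wsum]
    · show wt _ (phi3⁻¹ (of 2)) ≤ _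
      rw [h2]
      refine wt_of_le _ [(1, true)] _ ?_
      simp [wsum]
  · rw [inv_inv]
    refine wt_step _ _ phi3.toMonoidHom (fun a => ?_) x
    obtain ⟨h0, h1, h2⟩ := phi3_of
    fin_cases a
    · show wt _ (phi3 (of 0)) ≤ _
      rw [h0]
      refine wt_of_le _ [(1, true)] _ ?_
      simp [wsum]
    · show wt _ (phi3 (of 1)) ≤ _
      rw [h1]
      refine wt_of_le _ [(2, true)] _ ?_
      simp [wsum]
    · show wt _ (phi3 (of 2)) ≤ _
      rw [h2]
      refine wt_of_le _ [(0, true), (1, true)] _ ?_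
      simp [wsum]

theorem step5 (x : FreeGroup (Fin 5)) : wt ![3, 3, 4, 9, 12] (phi5 x) ≤ 7 / 4 * wt ![3, 3, 4, 9, 12] x := by
  refine wt_step ![3, 3, 4, 9, 12] ![3, 3, 4, 9, 12] phi5.toMonoidHom (fun a => ?_) x
  obtain ⟨h0, h1, h2, h3, h4⟩ := phi5_of
  fin_cases a
  · show wt _ (phi5 (of 0)) ≤ _
    rw [h0]
    refine wt_of_le _ [(1, true)] _ ?_
    simp [wsum]; norm_num
  · show wt _ (phi5 (of 1)) ≤ _
    rw [h1]
    refine wt_of_le _ [(2, true)] _ ?_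
    simp [wsum]; norm_num
  · show wt _ (phi5 (of 2)) ≤ _
    rw [h2]
    refine wt_of_le _ [(0, true), (1, true)] _ ?_
    simp [wsum]; norm_num
  · show wt _ (phi5 (of 3)) ≤ _
    rw [h3]
    refine wt_of_le _ [(4, true), (0, true)] _ ?_
    simp [wsum]; norm_num
  · show wt _ (phi5 (of 4)) ≤ _
    rw [h4]
    refine wt_of_le _ [(4, true), (3, true)] _ ?_
    simp [wsum]; norm_num

theorem step5' (x : FreeGroup (Fin 5)) : wt ![4, 3, 3, 64, 41] (phi5⁻¹ x) ≤ 7 / 4 * wt ![4, 3, 3, 64, 41] x := by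
  refine wt_step ![4, 3, 3, 64, 41] ![4, 3, 3, 64, 41] (phi5⁻¹).toMonoidHom (fun a => ?_) x
  obtain ⟨h0, h1, h2, h3, h4⟩ := phi5_inv
  fin_cases a
  · show wt _ (phi5⁻¹ (of 0)) ≤ _
    rw [h0]
    refine wt_of_le _ [(2, true), (0, false)] _ ?_
    simp [wsum]
  · show wt _ (phi5⁻¹ (of 1)) ≤ _
    rw [h1]
    refine wt_of_le _ [(0, true)] _ ?_
    simp [wsum]; norm_num
  · show wt _ (phi5⁻¹ (of 2)) ≤ _
    rw [h2]
    refine wt_of_le _ [(1, true)] _ ?_
    simp [wsum]; norm_num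
  · show wt _ (phi5⁻¹ (of 3)) ≤ _
    rw [h3]
    refine wt_of_le _ [(2, true), (0, false), (3, false), (4, true)] _ ?_
    simp [wsum]; norm_num
  · show wt _ (phi5⁻¹ (of 4)) ≤ _
    rw [h4]
    refine wt_of_le _ [(3, true), (0, true), (2, false)] _ ?_
    simp [wsum]; norm_num

/-! ### the exponents of `d` and `e` -/

/-- The exponent sum of the letter `i`. -/
def ex (i : Fin 5) : FreeGroup (Fin 5) →* Multiplicative ℤ := lift fun j => if j = i then Multiplicative.ofAdd 1 else 1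

/-- The exponent sum of the letter `i`, as an integer. -/
def xi (i : Fin 5) (y : FreeGroup (Fin 5)) : ℤ := Multiplicative.toAdd (ex i y)

theorem xi_mul (i : Fin 5) (x y : FreeGroup (Fin 5)) : xi i (x * y) = xi i x + xi i y := by
  unfold xi
  rw [_root_.map_mul, toAdd_mul]

theorem xi_one (i : Fin 5) : xi i 1 = 0 := by
  unfold xi
  rw [_root_.map_one, toAdd_one]

theorem xi_phi (y : FreeGroup (Fin 5)) : xi 3 (phi5 y) = xi 4 y ∧ xi 4 (phi5 y) = xi 3 y + xi 4 y := by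
  have e1 : (ex 3).comp phi5.toMonoidHom = ex 4 := by
    ext i
    fin_cases i <;> simp [ex, phi5]
  have e2 : (ex 4).comp phi5.toMonoidHom = ex 3 * ex 4 := by
    ext i
    fin_cases i <;> simp [ex, phi5]
  constructor
  · exact congrArg Multiplicative.toAdd (DFunLike.congr_fun e1 y)
  · exact congrArg Multiplicative.toAdd (DFunLike.congr_fun e2 y)

theorem xi_phi' (y : FreeGroup (Fin 5)) : xi 4 (phi5⁻¹ y) = xi 3 y ∧ xi 3 (phi5⁻¹ y) = xi 4 y - xi 3 y := by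
  have h := xi_phi (phi5⁻¹ y)
  have e : phi5 (phi5⁻¹ y) = y := MulAut.apply_inv_self _ phi5 y
  rw [e] at h
  omega

/-- The size of the exponents of `d` and `e`. -/
noncomputable def W3 (y : FreeGroup (Fin 5)) : ℝ := ((|xi 3 y| + |xi 4 y| : ℤ) : ℝ)

theorem W3_len : Len W3 := by
  refine ⟨?_, fun x => ?_, fun x y => ?_⟩
  · unfold W3
    rw [xi_one, xi_one]
    simp
  · unfold W3
    exact_mod_cast add_nonneg (abs_nonneg _) (abs_nonneg _)
  · unfold W3
    have h : |xi 3 (x * y)| + |xi 4 (x * y)| ≤ |xi 3 x| + |xi 4 x| + (|xi 3 y| + |xi 4 y|) := by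
      rw [xi_mul, xi_mul]
      have h1 := abs_add_le (xi 3 x) (xi 3 y)
      have h2 := abs_add_le (xi 4 x) (xi 4 y)
      omega
    exact_mod_cast h

theorem W3_lip : Lip phi5 W3 := by
  refine ⟨2, by norm_num, fun x => ⟨?_, ?_⟩⟩
  · unfold W3
    obtain ⟨h1, h2⟩ := xi_phi x
    have h : |xi 3 (phi5 x)| + |xi 4 (phi5 x)| ≤ 2 * (|xi 3 x| + |xi 4 x|) := by
      rw [h1, h2]
      have h3 := abs_add_le (xi 3 x) (xi 4 x)
      have h4 := abs_nonneg (xi 3 x)
      omega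
    exact_mod_cast h
  · unfold W3
    obtain ⟨h1, h2⟩ := xi_phi' x
    have h : |xi 3 (phi5⁻¹ x)| + |xi 4 (phi5⁻¹ x)| ≤ 2 * (|xi 3 x| + |xi 4 x|) := by
      rw [h1, h2]
      have h3 := abs_sub (xi 4 x) (xi 3 x)
      have h4 := abs_nonneg (xi 4 x)
      omega
    exact_mod_cast h

theorem fib_low : ∀ n : ℕ, (5 / 8 : ℝ) * (8 / 5) ^ n ≤ (Nat.fib (n + 1) : ℝ)
  | 0 => by norm_num
  | 1 => by norm_num
  | n + 2 => by
    have h1 := fib_low n
    have h2 := fib_low (n + 1)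
    have e : Nat.fib (n + 2 + 1) = Nat.fib (n + 1) + Nat.fib (n + 1 + 1) := Nat.fib_add_two
    rw [e, Nat.cast_add]
    have h3 : ((8 : ℝ) / 5) ^ (n + 2) = (8 / 5) ^ 2 * (8 / 5) ^ n := by rw [pow_add]; ring
    have h4 : ((8 : ℝ) / 5) ^ (n + 1) = (8 / 5) * (8 / 5) ^ n := by rw [pow_add]; ring
    have h5 : (0 : ℝ) < (8 / 5) ^ n := by positivity
    rw [h4] at h2
    rw [h3]
    nlinarith

theorem xi_of : xi 3 (of 4) = 0 ∧ xi 4 (of 4) = 1 := by
  constructor <;> simp [xi, ex]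

theorem grow5 (n : ℕ) : xi 3 ((phi5 ^ (n : ℤ)) (of 4)) = Nat.fib n ∧ xi 4 ((phi5 ^ (n : ℤ)) (of 4)) = Nat.fib (n + 1) := by
  induction n with
  | zero =>
    rw [Nat.cast_zero, zpow_zero, MulAut.one_apply]
    exact ⟨by rw [xi_of.1]; rfl, by rw [xi_of.2]; rfl⟩
  | succ n ih =>
    have e : ((n + 1 : ℕ) : ℤ) = 1 + (n : ℤ) := by push_cast; ring
    rw [e, zpow_add, zpow_one, MulAut.mul_apply, (xi_phi _).1, (xi_phi _).2, ih.1, ih.2]
    refine ⟨rfl, ?_⟩
    rw [Nat.fib_add_two]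
    push_cast
    ring

theorem grow5' (n : ℕ) : xi 3 ((phi5 ^ (-(n : ℤ))) (of 4)) = (-1) ^ (n + 1) * Nat.fib n ∧
    xi 4 ((phi5 ^ (-(n : ℤ))) (of 4)) = (-1) ^ n * (Nat.fib (n + 1) - Nat.fib n) := by
  induction n with
  | zero =>
    rw [Nat.cast_zero, neg_zero, zpow_zero, MulAut.one_apply]
    exact ⟨by rw [xi_of.1]; simp, by rw [xi_of.2]; simp⟩
  | succ n ih =>
    have e : -((n + 1 : ℕ) : ℤ) = -1 + -(n : ℤ) := by push_cast; ring
    rw [e, zpow_add, zpow_neg_one, MulAut.mul_apply, (xi_phi' _).1, (xi_phi' _).2, ih.1, ih.2, Nat.fib_add_two]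
    constructor
    · rw [pow_succ, pow_succ, pow_succ]
      ring
    · rw [pow_succ]
      push_cast
      ring

theorem W3_grow (n : ℕ) : (5 / 8 : ℝ) * (8 / 5) ^ n ≤ W3 ((phi5 ^ (n : ℤ)) (of 4)) := by
  obtain ⟨h1, h2⟩ := grow5 n
  refine (fib_low n).trans ?_
  unfold W3
  have h : (Nat.fib (n + 1) : ℤ) ≤ |xi 3 ((phi5 ^ (n : ℤ)) (of 4))| + |xi 4 ((phi5 ^ (n : ℤ)) (of 4))| := by
    rw [h2]
    have h3 := abs_nonneg (xi 3 ((phi5 ^ (n : ℤ)) (of 4)))
    have h4 := le_abs_self ((Nat.fib (n + 1) : ℕ) : ℤ)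
    omega
  exact_mod_cast h

theorem W3_grow' (n : ℕ) : (5 / 8 : ℝ) * (8 / 5) ^ n ≤ W3 ((phi5 ^ (-(n : ℤ))) (of 4)) := by
  obtain ⟨h1, h2⟩ := grow5' n
  refine (fib_low n).trans ?_
  unfold W3
  have h : (Nat.fib (n + 1) : ℤ) ≤ |xi 3 ((phi5 ^ (-(n : ℤ))) (of 4))| + |xi 4 ((phi5 ^ (-(n : ℤ))) (of 4))| := by
    rw [h1, h2, abs_mul, abs_mul, abs_pow, abs_pow, abs_neg, abs_one, one_pow, one_pow, one_mul, one_mul]
    have h4 := le_abs_self ((Nat.fib n : ℕ) : ℤ)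
    have h5 := le_abs_self (((Nat.fib (n + 1) : ℕ) : ℤ) - ((Nat.fib n : ℕ) : ℤ))
    omega
  exact_mod_cast h

theorem W3_le (y : FreeGroup (Fin 5)) : W3 y ≤ wt (fun _ => 1) y := by
  have key : ∀ L : List (Fin 5 × Bool), W3 (mk L) ≤ wsum (fun _ => 1) L := by
    intro L
    induction L with
    | nil =>
      have e : (mk ([] : List (Fin 5 × Bool))) = 1 := rfl
      rw [e, W3_len.one]
      exact Nat.cast_nonneg _
    | cons p L ih =>
      have e : mk (p :: L) = mk [p] * mk L := by rw [mul_mk]; rfl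
      have hp : W3 (mk [p]) ≤ 1 := by
        obtain ⟨a, b⟩ := p
        have h : |xi 3 (mk [(a, b)])| + |xi 4 (mk [(a, b)])| ≤ 1 := by
          fin_cases a <;> cases b <;> decide
        unfold W3
        exact_mod_cast h
      rw [e, wsum_cons, Nat.cast_add, Nat.cast_one]
      exact (W3_len.mul _ _).trans (add_le_add hp ih)
  have h := key y.toWord
  rw [mk_toWord] at h
  exact h

theorem lip5 : Lip (phi5⁻¹) (wt (fun _ : Fin 5 => 1)) := by
  refine ⟨4, by norm_num, fun x => ⟨?_, ?_⟩⟩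
  · refine wt_step _ _ (phi5⁻¹).toMonoidHom (fun a => ?_) x
    obtain ⟨h0, h1, h2, h3, h4⟩ := phi5_inv
    fin_cases a
    · show wt _ (phi5⁻¹ (of 0)) ≤ _
      rw [h0]
      refine wt_of_le _ [(2, true), (0, false)] _ ?_
      simp [wsum]; norm_num
    · show wt _ (phi5⁻¹ (of 1)) ≤ _
      rw [h1]
      refine wt_of_le _ [(0, true)] _ ?_
      simp [wsum]
    · show wt _ (phi5⁻¹ (of 2)) ≤ _
      rw [h2]
      refine wt_of_le _ [(1, true)] _ ?_
      simp [wsum]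
    · show wt _ (phi5⁻¹ (of 3)) ≤ _
      rw [h3]
      refine wt_of_le _ [(2, true), (0, false), (3, false), (4, true)] _ ?_
      simp [wsum]
    · show wt _ (phi5⁻¹ (of 4)) ≤ _
      rw [h4]
      refine wt_of_le _ [(3, true), (0, true), (2, false)] _ ?_
      simp [wsum]; norm_num
  · rw [inv_inv]
    refine wt_step _ _ phi5.toMonoidHom (fun a => ?_) x
    obtain ⟨h0, h1, h2, h3, h4⟩ := phi5_of
    fin_cases a
    · show wt _ (phi5 (of 0)) ≤ _
      rw [h0]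
      refine wt_of_le _ [(1, true)] _ ?_
      simp [wsum]
    · show wt _ (phi5 (of 1)) ≤ _
      rw [h1]
      refine wt_of_le _ [(2, true)] _ ?_
      simp [wsum]
    · show wt _ (phi5 (of 2)) ≤ _
      rw [h2]
      refine wt_of_le _ [(0, true), (1, true)] _ ?_
      simp [wsum]; norm_num
    · show wt _ (phi5 (of 3)) ≤ _
      rw [h3]
      refine wt_of_le _ [(4, true), (0, true)] _ ?_
      simp [wsum]; norm_num
    · show wt _ (phi5 (of 4)) ≤ _
      rw [h4]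
      refine wt_of_le _ [(4, true), (3, true)] _ ?_
      simp [wsum]; norm_num

end MTorus
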