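import Pool.Agent.Lib.MP_f0e889_al.Stretch

/-!
# A criterion for the absence of coarse equivalences which respect the fibres
-/

namespace MTorus

variable {E H E' H' : Type} [Group E] [Group H] [Group E'] [Group H'] {A : Fib E H} {B : Fib E' H'}
  {f : E → E'} {h : E' → E} {R : ℤ}

theorem hlip (c : CE A B f h R) (D : ℤ) : ∃ C : ℤ, 0 ≤ C ∧ ∀ x y : ℤ, |x - y| ≤ D →
    |B.ht (f (A.t ^ x)) - B.ht (f (A.t ^ y))| ≤ C := by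
  obtain ⟨Y, hY, h1⟩ := c.bf _ (fin_tz A D)
  obtain ⟨C, hC, h2⟩ := fin_bddZ hY B.ht
  refine ⟨C, hC, fun x y hxy => ?_⟩
  have h3 := h2 _ (h1 (A.t ^ y) (A.t ^ x) ⟨x - y, hxy, by rw [← zpow_neg, ← zpow_add]; congr 1; ring⟩)
  rw [B.ht_mul, B.ht_inv, neg_add_eq_sub] at h3
  exact h3

theorem hinv (c : CE A B f h R) : ∃ C : ℤ, 0 ≤ C ∧ ∀ j : ℤ, |A.ht (h (B.t ^ B.ht (f (A.t ^ j)))) - j| ≤ C := by
  obtain ⟨X, hX, h1⟩ := c.hf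
  obtain ⟨C, hC, h2⟩ := fin_bddZ hX A.ht
  have hR : 0 ≤ R := (abs_nonneg _).trans (c.rf 1 1 rfl)
  refine ⟨R + C, by omega, fun j => ?_⟩
  have h3 := h2 _ (h1 (A.t ^ j))
  rw [A.ht_mul, A.ht_inv, A.ht_tz, neg_add_eq_sub] at h3
  have h4 := c.rh (B.t ^ B.ht (f (A.t ^ j))) (f (A.t ^ j)) (B.ht_tz _)
  have h5 := abs_add_le (A.ht (h (B.t ^ B.ht (f (A.t ^ j)))) - A.ht (h (f (A.t ^ j)))) (A.ht (h (f (A.t ^ j))) - j)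
  rw [sub_add_sub_cancel] at h5
  omega

theorem hproper (c : CE A B f h R) (D : ℤ) : ∃ J : ℤ, 0 ≤ J ∧ ∀ x y : ℤ,
    |B.ht (f (A.t ^ x)) - B.ht (f (A.t ^ y))| ≤ D → |x - y| ≤ J := by
  obtain ⟨C, hC, h1⟩ := hinv c
  obtain ⟨C', hC', h2⟩ := hlip c.symm D
  refine ⟨C' + 2 * C, by omega, fun x y hxy => ?_⟩
  have h3 := h2 _ _ hxy
  have h4 := h1 x
  have h5 := h1 y
  rw [abs_le] at *
  omega

private theorem final (c₁ C c₃ C' : ℝ) (hc₁ : 0 < c₁) (hC : 0 < C) (hc₃ : 0 < c₃) (hC' : 0 < C') (K : ℕ) (hK : 1 ≤ K)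
    (L : ℕ → ℕ) (h1 : ∀ n, c₁ * (10 / 7) ^ (n * K) ≤ C * (7 / 4) ^ L n)
    (h2 : ∀ n, c₃ * (8 / 5) ^ L n ≤ C' * (4 / 3) ^ (n * K)) : False := by
  have hr : (1 : ℝ) < (10 / 7) ^ 5 / (4 / 3) ^ 6 := by norm_num
  obtain ⟨n, hn⟩ := pow_unbounded_of_one_lt (C ^ 5 * C' ^ 6 / (c₁ ^ 5 * c₃ ^ 6)) hr
  have e1 : (c₁ * (10 / 7) ^ (n * K)) ^ 5 ≤ (C * (7 / 4) ^ L n) ^ 5 := pow_le_pow_left₀ (by positivity) (h1 n) 5
  have e2 : (c₃ * (8 / 5) ^ L n) ^ 6 ≤ (C' * (4 / 3) ^ (n * K)) ^ 6 := pow_le_pow_left₀ (by positivity) (h2 n) 6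
  have e3 : (((7 : ℝ) / 4) ^ 5) ^ L n ≤ ((8 / 5) ^ 6) ^ L n := pow_le_pow_left₀ (by positivity) (by norm_num) _
  have e4 : c₁ ^ 5 * (((10 : ℝ) / 7) ^ 5) ^ (n * K) ≤ C ^ 5 * ((7 / 4) ^ 5) ^ L n := by
    have a1 : (c₁ * (10 / 7) ^ (n * K)) ^ 5 = c₁ ^ 5 * (((10 : ℝ) / 7) ^ 5) ^ (n * K) := by
      rw [mul_pow, ← pow_mul, ← pow_mul, mul_comm 5]
    have a2 : (C * (7 / 4) ^ L n) ^ 5 = C ^ 5 * (((7 : ℝ) / 4) ^ 5) ^ L n := by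
      rw [mul_pow, ← pow_mul, ← pow_mul, mul_comm 5]
    rw [a1, a2] at e1
    exact e1
  have e5 : c₃ ^ 6 * (((8 : ℝ) / 5) ^ 6) ^ L n ≤ C' ^ 6 * ((4 / 3) ^ 6) ^ (n * K) := by
    have a1 : (c₃ * (8 / 5) ^ L n) ^ 6 = c₃ ^ 6 * (((8 : ℝ) / 5) ^ 6) ^ L n := by
      rw [mul_pow, ← pow_mul, ← pow_mul, mul_comm 6]
    have a2 : (C' * (4 / 3) ^ (n * K)) ^ 6 = C' ^ 6 * (((4 : ℝ) / 3) ^ 6) ^ (n * K) := by
      rw [mul_pow, ← pow_mul, ← pow_mul, mul_comm 6]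
    rw [a1, a2] at e2
    exact e2
  have e6 : c₁ ^ 5 * c₃ ^ 6 * (((10 : ℝ) / 7) ^ 5) ^ (n * K) ≤ C ^ 5 * C' ^ 6 * ((4 / 3) ^ 6) ^ (n * K) := by
    have b1 := mul_le_mul_of_nonneg_left e4 (by positivity : 0 ≤ c₃ ^ 6)
    have b2 := mul_le_mul_of_nonneg_left e3 (by positivity : 0 ≤ c₃ ^ 6 * C ^ 5)
    have b3 := mul_le_mul_of_nonneg_left e5 (by positivity : 0 ≤ C ^ 5)
    linarith
  have e7 : ((10 / 7) ^ 5 / (4 / 3) ^ 6 : ℝ) ^ (n * K) ≤ C ^ 5 * C' ^ 6 / (c₁ ^ 5 * c₃ ^ 6) := by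
    rw [div_pow, div_le_div_iff₀ (by positivity) (by positivity)]
    linarith
  have e8 : ((10 / 7) ^ 5 / (4 / 3) ^ 6 : ℝ) ^ n ≤ ((10 / 7) ^ 5 / (4 / 3) ^ 6 : ℝ) ^ (n * K) :=
    pow_le_pow_right₀ hr.le (Nat.le_mul_of_pos_right n (by omega))
  linarith

theorem noInc (c : CE A B f h R)
    {W₁ : H → ℝ} (hW₁ : Len W₁) (hl₁ : Lip A.θ W₁) (s : H) (c₁ : ℝ) (hc₁ : 0 < c₁)
    (g₁ : ∀ n : ℕ, c₁ * (10 / 7) ^ n ≤ W₁ ((A.θ ^ (n : ℤ)) s))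
    {W₂ : H' → ℝ} (hW₂ : Len W₂) (hg₂ : Gen W₂) (st₂ : ∀ y, W₂ (B.θ y) ≤ 7 / 4 * W₂ y)
    {W₃ : H' → ℝ} (hW₃ : Len W₃) (hl₃ : Lip B.θ W₃) (s' : H') (c₃ : ℝ) (hc₃ : 0 < c₃)
    (g₃ : ∀ n : ℕ, c₃ * (8 / 5) ^ n ≤ W₃ ((B.θ ^ (-(n : ℤ))) s'))
    {W₄ : H → ℝ} (hW₄ : Len W₄) (hg₄ : Gen W₄) (st₄ : ∀ x, W₄ (A.θ⁻¹ x) ≤ 4 / 3 * W₄ x)
    (J C₅ : ℤ) (hJ0 : 0 < J) (hC₅ : ∀ j : ℤ, |A.ht (h (B.t ^ B.ht (f (A.t ^ j)))) - j| ≤ C₅) (hJ : 2 * C₅ + 1 ≤ J)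
    (hinc : ∀ j : ℤ, 1 ≤ B.ht (f (A.t ^ (j + J))) - B.ht (f (A.t ^ j))) : False := by
  obtain ⟨C, hC, t1⟩ := typeA c hW₁ hl₁ hW₂ hg₂ (by norm_num : (1 : ℝ) < 7 / 4) st₂ s J
  obtain ⟨U, hU, hUb⟩ := hlip c J
  have hl₃' : Lip B.rev.θ W₃ := by
    obtain ⟨L, hL, hL'⟩ := hl₃
    refine ⟨L, hL, fun x => ⟨(hL' x).2, ?_⟩⟩
    have e : B.rev.θ⁻¹ = B.θ := inv_inv B.θ
    rw [e]
    exact (hL' x).1
  obtain ⟨C', hC', t2⟩ := typeA (A := B.rev) (B := A.rev) c.symm.revL.revR hW₃ hl₃' hW₄ hg₄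
    (by norm_num : (1 : ℝ) < 4 / 3) st₄ s' U
  have hC₅0 : 0 ≤ C₅ := (abs_nonneg _).trans (hC₅ 0)
  have hmono : ∀ n : ℕ, 0 ≤ B.ht (f (A.t ^ ((n : ℤ) * J))) - B.ht (f (A.t ^ (0 : ℤ))) := by
    intro n
    induction n with
    | zero => simp
    | succ n ih =>
      have h3 := hinc ((n : ℤ) * J)
      have e : ((n + 1 : ℕ) : ℤ) * J = (n : ℤ) * J + J := by push_cast; ring
      rw [e]
      omega
  refine final c₁ C c₃ (C' * (4 / 3) ^ (2 * C₅).toNat) hc₁ hC hc₃ (by positivity) J.toNat (by omega)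
    (fun n => (B.ht (f (A.t ^ ((n : ℤ) * J))) - B.ht (f (A.t ^ (0 : ℤ)))).toNat) (fun n => ?_) (fun n => ?_)
  · have h3 := t1 (fun i => (i : ℤ) * J) n (fun i _ => by
      have e : ((i + 1 : ℕ) : ℤ) * J - (i : ℤ) * J = J := by push_cast; ring
      show |((i + 1 : ℕ) : ℤ) * J - (i : ℤ) * J| ≤ J
      rw [e, abs_of_pos hJ0]) (fun i _ => by
      have h4 := hinc ((i : ℤ) * J)
      have e : ((i + 1 : ℕ) : ℤ) * J = (i : ℤ) * J + J := by push_cast; ring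
      show 1 ≤ B.ht (f (A.t ^ (((i + 1 : ℕ) : ℤ) * J))) - B.ht (f (A.t ^ ((i : ℤ) * J)))
      rw [e]
      exact h4)
    have h4 := g₁ (n * J.toNat)
    have e1 : ((n : ℤ) * J - ((0 : ℕ) : ℤ) * J) = ((n * J.toNat : ℕ) : ℤ) := by
      push_cast
      rw [Int.toNat_of_nonneg hJ0.le]
      ring
    have e2 : ((0 : ℕ) : ℤ) * J = 0 := by simp
    have h3' : W₁ ((A.θ ^ ((n : ℤ) * J - ((0 : ℕ) : ℤ) * J)) s) ≤
        C * (7 / 4) ^ (B.ht (f (A.t ^ ((n : ℤ) * J))) - B.ht (f (A.t ^ (((0 : ℕ) : ℤ) * J)))) := h3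
    rw [e1, e2] at h3'
    have e3 : B.ht (f (A.t ^ ((n : ℤ) * J))) - B.ht (f (A.t ^ (0 : ℤ))) =
        (((B.ht (f (A.t ^ ((n : ℤ) * J))) - B.ht (f (A.t ^ (0 : ℤ)))).toNat : ℕ) : ℤ) := (Int.toNat_of_nonneg (hmono n)).symm
    rw [e3, zpow_natCast] at h3'
    exact h4.trans h3'
  · have key : ∀ j : ℤ, A.rev.ht (h (B.rev.t ^ (-B.ht (f (A.t ^ j))))) = -A.ht (h (B.t ^ B.ht (f (A.t ^ j)))) := by
      intro j
      rw [B.rev_tz, neg_neg]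
      rfl
    have h3 := t2 (fun i => -B.ht (f (A.t ^ (((n : ℤ) - i) * J)))) n (fun i _ => by
      show |-B.ht (f (A.t ^ (((n : ℤ) - ((i + 1 : ℕ) : ℤ)) * J))) - -B.ht (f (A.t ^ (((n : ℤ) - i) * J)))| ≤ U
      have h5 := hUb (((n : ℤ) - i) * J) (((n : ℤ) - ((i + 1 : ℕ) : ℤ)) * J) (by
        have e : ((n : ℤ) - i) * J - ((n : ℤ) - ((i + 1 : ℕ) : ℤ)) * J = J := by push_cast; ring
        rw [e, abs_of_pos hJ0])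
      have e : -B.ht (f (A.t ^ (((n : ℤ) - ((i + 1 : ℕ) : ℤ)) * J))) - -B.ht (f (A.t ^ (((n : ℤ) - i) * J))) =
        B.ht (f (A.t ^ (((n : ℤ) - i) * J))) - B.ht (f (A.t ^ (((n : ℤ) - ((i + 1 : ℕ) : ℤ)) * J))) := by ring
      rw [e]
      exact h5) (fun i _ => by
      show 1 ≤ A.rev.ht (h (B.rev.t ^ (-B.ht (f (A.t ^ (((n : ℤ) - ((i + 1 : ℕ) : ℤ)) * J)))))) -
        A.rev.ht (h (B.rev.t ^ (-B.ht (f (A.t ^ (((n : ℤ) - i) * J))))))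
      rw [key, key]
      have h5 := hC₅ (((n : ℤ) - ((i + 1 : ℕ) : ℤ)) * J)
      have h6 := hC₅ (((n : ℤ) - i) * J)
      have e : ((n : ℤ) - ((i + 1 : ℕ) : ℤ)) * J = ((n : ℤ) - i) * J - J := by push_cast; ring
      rw [e] at h5 ⊢
      rw [abs_le] at h5 h6
      omega)
    have h3' : W₃ ((B.θ⁻¹ ^ (-B.ht (f (A.t ^ (((n : ℤ) - (n : ℤ)) * J))) - -B.ht (f (A.t ^ (((n : ℤ) - ((0 : ℕ) : ℤ)) * J))))) s') ≤
        C' * (4 / 3) ^ (A.rev.ht (h (B.rev.t ^ (-B.ht (f (A.t ^ (((n : ℤ) - (n : ℤ)) * J)))))) -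
          A.rev.ht (h (B.rev.t ^ (-B.ht (f (A.t ^ (((n : ℤ) - ((0 : ℕ) : ℤ)) * J))))))) := h3
    rw [key, key, sub_self, zero_mul, Nat.cast_zero, sub_zero] at h3'
    have h5 := hC₅ 0
    have h6 := hC₅ ((n : ℤ) * J)
    rw [abs_le] at h5 h6
    have h4 := g₃ (B.ht (f (A.t ^ ((n : ℤ) * J))) - B.ht (f (A.t ^ (0 : ℤ)))).toNat
    have e1 : -B.ht (f (A.t ^ (0 : ℤ))) - -B.ht (f (A.t ^ ((n : ℤ) * J))) =
        (((B.ht (f (A.t ^ ((n : ℤ) * J))) - B.ht (f (A.t ^ (0 : ℤ)))).toNat : ℕ) : ℤ) := by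
      rw [Int.toNat_of_nonneg (hmono n)]
      ring
    rw [e1, inv_zpow'] at h3'
    refine h4.trans (h3'.trans ?_)
    rw [mul_assoc]
    refine mul_le_mul_of_nonneg_left ?_ hC'.le
    rw [← pow_add, ← zpow_natCast]
    refine zpow_le_zpow_right₀ (by norm_num) ?_
    push_cast
    rw [Int.toNat_of_nonneg (by omega), Int.toNat_of_nonneg hJ0.le]
    omega

theorem noCE (c : CE A B f h R)
    {W₁ : H → ℝ} (hW₁ : Len W₁) (hl₁ : Lip A.θ W₁) (s : H) (c₁ : ℝ) (hc₁ : 0 < c₁)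
    (g₁ : ∀ n : ℕ, c₁ * (10 / 7) ^ n ≤ W₁ ((A.θ ^ (n : ℤ)) s))
    {W₂ : H' → ℝ} (hW₂ : Len W₂) (hg₂ : Gen W₂) (st₂ : ∀ y, W₂ (B.θ y) ≤ 7 / 4 * W₂ y)
    {W₂' : H' → ℝ} (hW₂' : Len W₂') (hg₂' : Gen W₂') (st₂' : ∀ y, W₂' (B.θ⁻¹ y) ≤ 7 / 4 * W₂' y)
    {W₃ : H' → ℝ} (hW₃ : Len W₃) (hl₃ : Lip B.θ W₃) (s' : H') (c₃ : ℝ) (hc₃ : 0 < c₃)
    (g₃ : ∀ n : ℕ, c₃ * (8 / 5) ^ n ≤ W₃ ((B.θ ^ (-(n : ℤ))) s'))
    (g₃' : ∀ n : ℕ, c₃ * (8 / 5) ^ n ≤ W₃ ((B.θ ^ (n : ℤ)) s'))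
    {W₄ : H → ℝ} (hW₄ : Len W₄) (hg₄ : Gen W₄) (st₄ : ∀ x, W₄ (A.θ⁻¹ x) ≤ 4 / 3 * W₄ x) : False := by
  obtain ⟨C₅, hC₅, i5⟩ := hinv c
  obtain ⟨C₆, hC₆, i6⟩ := hinv c.revR
  obtain ⟨C, hC, l1⟩ := hlip c 1
  obtain ⟨J₀, hJ₀, p1⟩ := hproper c (2 * C)
  obtain ⟨J, hJd⟩ : ∃ J : ℤ, J = J₀ + 2 * C₅ + 2 * C₆ + 1 := ⟨_, rfl⟩
  have hbig : ∀ j : ℤ, 2 * C < |B.ht (f (A.t ^ (j + J))) - B.ht (f (A.t ^ j))| := by
    intro j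
    by_contra hcon
    have h1 := p1 (j + J) j (not_lt.1 hcon)
    have e : j + J - j = J := by ring
    rw [e, abs_of_nonneg (by omega)] at h1
    omega
  have hstep : ∀ j : ℤ, |B.ht (f (A.t ^ (j + 1))) - B.ht (f (A.t ^ j))| ≤ C := fun j => l1 _ _ (by
    have e : j + 1 - j = 1 := by ring
    rw [e]
    norm_num)
  have hsgn : ∀ j : ℤ, |(B.ht (f (A.t ^ (j + 1 + J))) - B.ht (f (A.t ^ (j + 1)))) -
      (B.ht (f (A.t ^ (j + J))) - B.ht (f (A.t ^ j)))| ≤ 2 * C := by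
    intro j
    have h1 := hstep j
    have h2 := hstep (j + J)
    have e : j + J + 1 = j + 1 + J := by ring
    rw [e] at h2
    rw [abs_le] at *
    omega
  have hcase : (∀ j : ℤ, 1 ≤ B.ht (f (A.t ^ (j + J))) - B.ht (f (A.t ^ j))) ∨
      (∀ j : ℤ, B.ht (f (A.t ^ (j + J))) - B.ht (f (A.t ^ j)) ≤ -1) := by
    rcases le_or_gt 0 (B.ht (f (A.t ^ ((0 : ℤ) + J))) - B.ht (f (A.t ^ (0 : ℤ)))) with h0 | h0
    · left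
      have hall : ∀ j : ℤ, 0 ≤ B.ht (f (A.t ^ (j + J))) - B.ht (f (A.t ^ j)) := by
        intro j
        induction j using Int.induction_on with
        | zero => exact h0
        | succ j ih =>
          have h1 := hsgn j
          have h2 := hbig j
          have h3 := hbig (j + 1)
          rw [abs_of_nonneg ih] at h2
          rw [abs_le] at h1
          omega
        | pred j ih =>
          have h1 := hsgn (-(j : ℤ) - 1)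
          have h2 := hbig (-(j : ℤ))
          have e1 : -(j : ℤ) - 1 + 1 = -(j : ℤ) := by ring
          rw [e1] at h1
          rw [abs_of_nonneg ih] at h2
          rw [abs_le] at h1
          omega
      intro j
      have h1 := hbig j
      rw [abs_of_nonneg (hall j)] at h1
      omega
    · right
      have hall : ∀ j : ℤ, B.ht (f (A.t ^ (j + J))) - B.ht (f (A.t ^ j)) ≤ 0 := by
        intro j
        induction j using Int.induction_on with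
        | zero => exact h0.le
        | succ j ih =>
          have h1 := hsgn j
          have h2 := hbig j
          rw [abs_of_nonpos ih] at h2
          rw [abs_le] at h1
          omega
        | pred j ih =>
          have h1 := hsgn (-(j : ℤ) - 1)
          have h2 := hbig (-(j : ℤ))
          have e1 : -(j : ℤ) - 1 + 1 = -(j : ℤ) := by ring
          rw [e1] at h1
          rw [abs_of_nonpos ih] at h2
          rw [abs_le] at h1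
          omega
      intro j
      have h1 := hbig j
      rw [abs_of_nonpos (hall j)] at h1
      omega
  rcases hcase with hc | hc
  · exact noInc c hW₁ hl₁ s c₁ hc₁ g₁ hW₂ hg₂ st₂ hW₃ hl₃ s' c₃ hc₃ g₃ hW₄ hg₄ st₄ J C₅ (by omega) i5 (by omega) hc
  · have hl₃' : Lip B.rev.θ W₃ := by
      obtain ⟨L, hL, hL'⟩ := hl₃
      refine ⟨L, hL, fun x => ⟨(hL' x).2, ?_⟩⟩
      have e : B.rev.θ⁻¹ = B.θ := inv_inv B.θ
      rw [e]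
      exact (hL' x).1
    refine noInc c.revR hW₁ hl₁ s c₁ hc₁ g₁ hW₂' hg₂' st₂' hW₃ hl₃' s' c₃ hc₃ (fun n => ?_) hW₄ hg₄ st₄ J C₆
      (by omega) i6 (by omega) (fun j => ?_)
    · have e : B.rev.θ ^ (-(n : ℤ)) = B.θ ^ (n : ℤ) := by
        show B.θ⁻¹ ^ (-(n : ℤ)) = B.θ ^ (n : ℤ)
        rw [inv_zpow', neg_neg]
      rw [e]
      exact g₃' n
    · show 1 ≤ -B.ht (f (A.t ^ (j + J))) - -B.ht (f (A.t ^ j))
      have := hc j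
      omega

end MTorus
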