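import Pool.Agent.Lib.MP_f0e889_al.Flat2

/-!
# From one-sided to two-sided respect for the fibres
-/

namespace MTorus

section

variable {E E' α β : Type} [Group E] [Group E'] [DecidableEq α] [DecidableEq β] [Finite α] [Finite β]
  {A : Fib E (FreeGroup α)} {B : Fib E' (FreeGroup β)} {f : E → E'} {h : E' → E} {R : ℤ}

theorem CE1.heights (c : CE1 A B f h R) (hl : Lip B.θ (wt fun _ => 1)) (s : FreeGroup α) {c₁ κ : ℝ} (hc₁ : 0 < c₁)
    (hκ : 1 < κ) (hg : ∀ n : ℕ, c₁ * κ ^ n ≤ wt (fun _ => 1) ((A.θ ^ (n : ℤ)) s)) (D : ℤ) :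
    ∃ J : ℤ, 0 ≤ J ∧ ∀ a b : ℤ, |B.ht (f (A.t ^ a)) - B.ht (f (A.t ^ b))| ≤ D → |a - b| ≤ J := by
  obtain ⟨C, hC, h1⟩ := c.nofold
  obtain ⟨n, hn⟩ := c.noflat hl s hc₁ hκ hg (D + C)
  have key : ∀ a b : ℤ, a ≤ b → |B.ht (f (A.t ^ a)) - B.ht (f (A.t ^ b))| ≤ D → b - a ≤ n := by
    intro a b hab hD
    by_contra hcon
    obtain ⟨i, hi, h2⟩ := hn a
    obtain ⟨h3, h4⟩ := h1 a b (a + i) (by omega) (by omega)
    have m1 := min_le_left (B.ht (f (A.t ^ a))) (B.ht (f (A.t ^ b)))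
    have m2 := le_max_left (B.ht (f (A.t ^ a))) (B.ht (f (A.t ^ b)))
    have h5 : |B.ht (f (A.t ^ (a + (i : ℤ)))) - B.ht (f (A.t ^ a))| ≤ D + C := by
      rw [abs_le] at *
      rcases le_total (B.ht (f (A.t ^ a))) (B.ht (f (A.t ^ b))) with h | h
      · rw [min_eq_left h] at h3
        rw [max_eq_right h] at h4
        omega
      · rw [min_eq_right h] at h3
        rw [max_eq_left h] at h4
        omega
    omega
  refine ⟨n, Int.natCast_nonneg n, fun a b hab => ?_⟩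
  rcases le_total a b with h | h
  · have := key a b h hab
    rw [abs_le]
    omega
  · rw [abs_sub_comm] at hab
    have := key b a h hab
    rw [abs_le]
    omega

theorem CE1.toCE (c : CE1 A B f h R) (hl : Lip B.θ (wt fun _ => 1)) (s : FreeGroup α) {c₁ κ : ℝ} (hc₁ : 0 < c₁)
    (hκ : 1 < κ) (hg : ∀ n : ℕ, c₁ * κ ^ n ≤ wt (fun _ => 1) ((A.θ ^ (n : ℤ)) s)) : ∃ R' : ℤ, CE A B f h R' := by
  obtain ⟨C₆, hC₆, h6⟩ := c.fhz
  obtain ⟨J, hJ, h1⟩ := c.heights hl s hc₁ hκ hg (2 * (R + C₆))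
  have hR : 0 ≤ R := (abs_nonneg _).trans (c.rf 1 1 rfl)
  refine ⟨max R J, c.bf, c.bh, c.hf, c.fh, fun x y hxy => (c.rf x y hxy).trans (le_max_left _ _), fun z z' hz => ?_⟩
  refine (h1 _ _ ?_).trans (le_max_right _ _)
  have e1 := c.rf (A.t ^ A.ht (h z)) (h z) (A.ht_tz _)
  have e2 := c.rf (A.t ^ A.ht (h z')) (h z') (A.ht_tz _)
  have e3 := h6 z
  have e4 := h6 z'
  rw [abs_le] at *
  omega

end

variable {E H E' H' : Type} [Group E] [Group H] [Group E'] [Group H']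

theorem CE1.of_qi (A : Fib E H) (B : Fib E' H') {N : Subgroup E} {N' : Subgroup E'} (hN : ∀ x, x ∈ N ↔ A.ht x = 0)
    (hN' : ∀ x, x ∈ N' ↔ B.ht x = 0) {S : Set E} {T : Set E'} (hS : Subgroup.closure S = ⊤) (hSf : S.Finite)
    (hT : Subgroup.closure T = ⊤) (hTf : T.Finite) {f : E → E'} (hf : IsQI S T f) (hc : CosetsIntoCosets N N' T f) :
    ∃ h R, CE1 A B f h R := by
  obtain ⟨K, k1, k2, k3⟩ := hf
  obtain ⟨K', hK'⟩ := hc
  choose h hh using k3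
  have hbT : ∀ n : ℕ, ∃ C : ℤ, 0 ≤ C ∧ ∀ x y, wd T x y ≤ n → |B.ht x - B.ht y| ≤ C := by
    intro n
    obtain ⟨C, hC, h1⟩ := fin_bddZ (ball_fin hT hTf n) B.ht
    refine ⟨C, hC, fun x y hxy => ?_⟩
    have h2 := h1 (x⁻¹ * y) hxy
    rw [B.ht_mul, B.ht_inv, neg_add_eq_sub, abs_sub_comm] at h2
    exact h2
  obtain ⟨C₁, hC₁, c1⟩ := hbT K'
  refine ⟨h, 2 * C₁, ?_, ?_, ?_, ?_, ?_⟩
  · intro X hX
    obtain ⟨n, hn⟩ := fin_bddN hX (wl S)
    refine ⟨_, ball_fin hT hTf (K * n + K), fun x y hxy => ?_⟩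
    have h1 : wd S x y ≤ n := hn _ hxy
    exact (k1 x y).trans (by gcongr)
  · intro Y hY
    obtain ⟨n, hn⟩ := fin_bddN hY (wl T)
    refine ⟨_, ball_fin hS hSf (K * (K + n + K) + K), fun x y hxy => ?_⟩
    have h1 : wd T x y ≤ n := hn _ hxy
    have h2 : wd T (f (h x)) (f (h y)) ≤ K + n + K := by
      have t1 := wd_tri hT (f (h x)) x (f (h y))
      have t2 := wd_tri hT x y (f (h y))
      have t3 := hh x
      have t4 := hh y
      rw [wd_comm hT] at t4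
      omega
    exact (k2 (h x) (h y)).trans (by gcongr)
  · refine ⟨_, ball_fin hS hSf (K * K + K), fun x => ?_⟩
    have h1 := k2 x (h (f x))
    have h2 := hh (f x)
    rw [wd_comm hT] at h2
    exact h1.trans (by gcongr)
  · refine ⟨_, ball_fin hT hTf K, fun y => ?_⟩
    have h2 := hh y
    rw [wd_comm hT] at h2
    exact h2
  · intro x y hxy
    obtain ⟨g', h1⟩ := hK' x
    obtain ⟨m, hm, h2⟩ := h1 1 N.one_mem
    obtain ⟨m', hm', h3⟩ := h1 (x⁻¹ * y) ((hN _).2 (by rw [A.ht_mul, A.ht_inv]; omega))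
    rw [mul_one] at h2
    rw [mul_inv_cancel_left] at h3
    have h4 := c1 _ _ h2
    have h5 := c1 _ _ h3
    rw [B.ht_mul, (hN' _).1 hm] at h4
    rw [B.ht_mul, (hN' _).1 hm'] at h5
    rw [abs_le] at *
    omega

end MTorus
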