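import Pool.Agent.Lib.MP_f0e889_al.Fib

/-!
# The stretch of vertical lines under coarse equivalences which respect the fibres
-/

namespace MTorus

variable {E H E' H' : Type} [Group E] [Group H] [Group E'] [Group H'] {A : Fib E H} {B : Fib E' H'}
  {f : E → E'} {h : E' → E} {R : ℤ}

/-- Every `y` is a product of at most `W y` elements of the finite set `T`. -/
def Gen {H : Type} [Group H] (W : H → ℝ) : Prop :=
  ∃ T : Set H, T.Finite ∧ ∀ y, ∃ l : List H, (∀ z ∈ l, z ∈ T) ∧ l.prod = y ∧ (l.length : ℝ) ≤ W y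

theorem hpart (c : CE A B f h R) {W : H → ℝ} (hW : Len W) (hl : Lip A.θ W) {W' : H' → ℝ} (hg : Gen W') :
    ∃ C D : ℝ, 0 ≤ C ∧ 0 ≤ D ∧ ∀ p q, A.ht p = A.ht q →
      W (A.hp (p⁻¹ * q)) ≤ C * W' (B.hp ((f p)⁻¹ * f q)) + D := by
  obtain ⟨T, hT, hgen⟩ := hg
  obtain ⟨X₁, hX₁, h1⟩ := c.bh (B.inc '' T) (hT.image _)
  obtain ⟨X₂, hX₂, h2⟩ := c.bh _ (fin_tz B R)
  obtain ⟨X₃, hX₃, h3⟩ := c.hf
  obtain ⟨C₂, hC₂, b2⟩ := fin_bdd ((Set.finite_Icc (-R) R).prod hX₁) fun p : ℤ × E => W ((A.θ ^ (-p.1)) (A.hp p.2))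
  have chain : ∀ (l : List H'), (∀ z ∈ l, z ∈ T) → ∀ z₀ : E',
      W (A.hp ((h z₀)⁻¹ * h (z₀ * B.inc l.prod))) ≤ C₂ * l.length := by
    intro l
    induction l using List.reverseRecOn with
    | nil =>
      intro _ z₀
      rw [List.prod_nil, B.inc_one, mul_one, inv_mul_cancel, A.hp_one, hW.one]
      simp
    | append_singleton l a ih =>
      intro hla z₀
      have ih' := ih (fun z hz => hla z (List.mem_append_left _ hz)) z₀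
      have haT : a ∈ T := hla a (List.mem_append_right _ (List.mem_singleton_self a))
      set z₁ := z₀ * B.inc l.prod with hz₁
      have e1 : z₀ * B.inc (l ++ [a]).prod = z₁ * B.inc a := by
        rw [List.prod_append, List.prod_singleton, B.inc_mul, hz₁, mul_assoc]
      have e2 : (h z₀)⁻¹ * h (z₁ * B.inc a) = ((h z₀)⁻¹ * h z₁) * ((h z₁)⁻¹ * h (z₁ * B.inc a)) := by group
      have hw : (h z₁)⁻¹ * h (z₁ * B.inc a) ∈ X₁ := h1 _ _ (by rw [inv_mul_cancel_left]; exact ⟨a, haT, rfl⟩)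
      have hr : |A.ht ((h z₀)⁻¹ * h z₁)| ≤ R := by
        have := c.rh z₁ z₀ (by rw [hz₁, B.ht_mul, B.ht_inc, add_zero])
        rw [A.ht_mul, A.ht_inv, neg_add_eq_sub]
        exact this
      have hb := b2 (A.ht ((h z₀)⁻¹ * h z₁), (h z₁)⁻¹ * h (z₁ * B.inc a)) ⟨abs_le.1 hr, hw⟩
      rw [e1, e2, A.hp_mul]
      refine (hW.mul _ _).trans ?_
      rw [List.length_append, List.length_singleton, Nat.cast_add, Nat.cast_one]
      have hb' : W ((A.θ ^ (-A.ht ((h z₀)⁻¹ * h z₁))) (A.hp ((h z₁)⁻¹ * h (z₁ * B.inc a)))) ≤ C₂ := hb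
      linarith
  obtain ⟨U, hU, bU⟩ := fin_bddZ hX₃ A.ht
  obtain ⟨L, hL, bL⟩ := hl.zpow hW U
  obtain ⟨Ca, hCa, ba⟩ := fin_bdd hX₃ fun x => W (A.hp x)
  obtain ⟨Cb, hCb, bb⟩ := fin_bdd ((Set.finite_Icc (-R) R).prod (hX₂.prod hX₃))
    fun p : ℤ × E × E => W ((A.θ ^ (-p.1)) (A.hp (p.2.1 * p.2.2⁻¹)))
  have hL0 : 0 ≤ L := zero_le_one.trans hL
  refine ⟨L * C₂, Ca + L * Cb, mul_nonneg hL0 hC₂, add_nonneg hCa (mul_nonneg hL0 hCb), fun p q hpq => ?_⟩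
  obtain ⟨l, hlT, hlp, hll⟩ := hgen (B.hp ((f p)⁻¹ * f q))
  set z := f p * B.inc (B.hp ((f p)⁻¹ * f q)) with hz
  have hch := chain l hlT (f p)
  rw [hlp, ← hz] at hch
  have hρ : |B.ht ((f p)⁻¹ * f q)| ≤ R := by
    have := c.rf q p hpq.symm
    rw [B.ht_mul, B.ht_inv, neg_add_eq_sub]
    exact this
  have hzq : z⁻¹ * f q = B.t ^ B.ht ((f p)⁻¹ * f q) := by
    have e := B.eq_dec ((f p)⁻¹ * f q)
    rw [hz, mul_inv_rev, mul_assoc, inv_mul_eq_iff_eq_mul]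
    exact e
  have m2 := h2 z (f q) ⟨_, hρ, hzq⟩
  have m3p := h3 p
  have m3q := h3 q
  have hg : |A.ht ((h (f p))⁻¹ * h z)| ≤ R := by
    have := c.rh z (f p) (by rw [hz, B.ht_mul, B.ht_inc, add_zero])
    rw [A.ht_mul, A.ht_inv, neg_add_eq_sub]
    exact this
  have e3 : p⁻¹ * q = (p⁻¹ * h (f p)) * (((h (f p))⁻¹ * h z) * (((h z)⁻¹ * h (f q)) * (q⁻¹ * h (f q))⁻¹)) := by group
  have hb := bb (A.ht ((h (f p))⁻¹ * h z), (h z)⁻¹ * h (f q), q⁻¹ * h (f q)) ⟨abs_le.1 hg, m2, m3q⟩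
  have ha := ba _ m3p
  have hb' : W ((A.θ ^ (-A.ht ((h (f p))⁻¹ * h z))) (A.hp (((h z)⁻¹ * h (f q)) * (q⁻¹ * h (f q))⁻¹))) ≤ Cb := hb
  have hu : |-A.ht (p⁻¹ * h (f p))| ≤ U := by
    rw [abs_neg]
    exact bU _ m3p
  rw [e3, A.hp_mul (p⁻¹ * h (f p)) _, A.hp_mul ((h (f p))⁻¹ * h z) _]
  refine (hW.mul _ _).trans ?_
  have k1 := bL _ hu (A.hp ((h (f p))⁻¹ * h z) * (A.θ ^ (-A.ht ((h (f p))⁻¹ * h z))) (A.hp (((h z)⁻¹ * h (f q)) * (q⁻¹ * h (f q))⁻¹)))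
  have k2 := hW.mul (A.hp ((h (f p))⁻¹ * h z)) ((A.θ ^ (-A.ht ((h (f p))⁻¹ * h z))) (A.hp (((h z)⁻¹ * h (f q)) * (q⁻¹ * h (f q))⁻¹)))
  have k3 : W (A.hp ((h (f p))⁻¹ * h z)) ≤ C₂ * W' (B.hp ((f p)⁻¹ * f q)) := hch.trans (mul_le_mul_of_nonneg_left hll hC₂)
  have k4 := mul_le_mul_of_nonneg_left (k2.trans (add_le_add k3 hb')) hL0
  have ha' : W (A.hp (p⁻¹ * h (f p))) ≤ Ca := ha
  linarith [k1.trans k4]

theorem Len.stretch {H : Type} [Group H] {θ : MulAut H} {W : H → ℝ} {κ : ℝ} (hκ : 1 < κ)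
    (hst : ∀ y, W (θ y) ≤ κ * W y) (m : ℕ) : ∀ y, W ((θ ^ (m : ℤ)) y) ≤ κ ^ (m : ℤ) * W y := by
  induction m with
  | zero => intro y; simp
  | succ m ih =>
    intro y
    have e : ((m + 1 : ℕ) : ℤ) = (m : ℤ) + 1 := by push_cast; ring
    rw [e, zpow_add_one, MulAut.mul_apply, zpow_add_one₀ (by linarith : κ ≠ 0) (m : ℤ)]
    refine (ih (θ y)).trans ?_
    have := mul_le_mul_of_nonneg_left (hst y) (zpow_nonneg (by linarith : (0:ℝ) ≤ κ) (m : ℤ))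
    linarith

theorem fpart (c : CE A B f h R) {W' : H' → ℝ} (hW : Len W') {κ : ℝ} (hκ : 1 < κ)
    (hst : ∀ y, W' (B.θ y) ≤ κ * W' y) (s : H) (U : ℤ) :
    ∃ C : ℝ, 0 ≤ C ∧ ∀ (a : ℕ → ℤ) (n : ℕ), (∀ i < n, |a (i + 1) - a i| ≤ U) →
      (∀ i < n, 1 ≤ B.ht (f (A.t ^ a (i + 1))) - B.ht (f (A.t ^ a i))) →
      W' (B.hp ((f (A.t ^ a n))⁻¹ * f (A.t ^ a 0 * (A.inc s * A.t ^ (a n - a 0))))) ≤
        C * κ ^ (B.ht (f (A.t ^ a n)) - B.ht (f (A.t ^ a 0))) := by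
  obtain ⟨Y, hY, h1⟩ := c.bf _ (fin_tz A U)
  obtain ⟨Y₀, hY₀, h0⟩ := c.bf {A.inc s} (Set.finite_singleton _)
  obtain ⟨C₀, hC₀, b0⟩ := fin_bdd hY₀ fun x => W' (B.hp x)
  obtain ⟨C₁, hC₁, b1⟩ := fin_bdd ((Set.finite_Icc (-R) R).prod (hY.prod hY))
    fun p : ℤ × E' × E' => W' (B.hp p.2.1⁻¹) + W' ((B.θ ^ (B.ht p.2.1)) ((B.θ ^ (-p.1)) (B.hp p.2.2)))
  have hκ0 : (0 : ℝ) < κ := by linarith
  have hκ1 : 0 < κ - 1 := by linarith
  have hc' : 0 ≤ C₁ / (κ - 1) := div_nonneg hC₁ hκ1.le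
  refine ⟨C₀ + C₁ / (κ - 1), add_nonneg hC₀ hc', fun a n ha hb => ?_⟩
  have key : ∀ i, i ≤ n → W' (B.hp ((f (A.t ^ a i))⁻¹ * f (A.t ^ a 0 * (A.inc s * A.t ^ (a i - a 0))))) + C₁ / (κ - 1) ≤
      (C₀ + C₁ / (κ - 1)) * κ ^ (B.ht (f (A.t ^ a i)) - B.ht (f (A.t ^ a 0))) := by
    intro i
    induction i with
    | zero =>
      intro _
      rw [sub_self, sub_self, zpow_zero, zpow_zero, mul_one, mul_one]
      have := b0 _ (h0 (A.t ^ a 0) (A.t ^ a 0 * A.inc s) (by rw [inv_mul_cancel_left]; rfl))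
      have h' : W' (B.hp ((f (A.t ^ a 0))⁻¹ * f (A.t ^ a 0 * A.inc s))) ≤ C₀ := this
      linarith
    | succ i ih =>
      intro hi
      have ih' := ih (by omega)
      set p := A.t ^ a i with hp
      set p' := A.t ^ a (i + 1) with hp'
      set q := A.t ^ a 0 * (A.inc s * A.t ^ (a i - a 0)) with hq
      set q' := A.t ^ a 0 * (A.inc s * A.t ^ (a (i + 1) - a 0)) with hq'
      have hu : (f p)⁻¹ * f p' ∈ Y := h1 _ _ ⟨a (i + 1) - a i, ha i (by omega), by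
        rw [hp, hp', ← zpow_neg, ← zpow_add]
        congr 1
        ring⟩
      have hv : (f q)⁻¹ * f q' ∈ Y := h1 _ _ ⟨a (i + 1) - a i, ha i (by omega), by
        have e : a (i + 1) - a 0 = (a i - a 0) + (a (i + 1) - a i) := by ring
        rw [hq, hq', e, zpow_add]
        group⟩
      have hr : |B.ht ((f p)⁻¹ * f q)| ≤ R := by
        have := c.rf q p (by
          rw [hq, hp, A.ht_mul, A.ht_mul, A.ht_inc, A.ht_tz, A.ht_tz, A.ht_tz]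
          ring)
        rw [B.ht_mul, B.ht_inv, neg_add_eq_sub]
        exact this
      have hbd := b1 (B.ht ((f p)⁻¹ * f q), (f p)⁻¹ * f p', (f q)⁻¹ * f q') ⟨abs_le.1 hr, hu, hv⟩
      have e1 : (f p')⁻¹ * f q' = ((f p)⁻¹ * f p')⁻¹ * (((f p)⁻¹ * f q) * ((f q)⁻¹ * f q')) := by group
      obtain ⟨m, hm⟩ : ∃ m : ℕ, B.ht ((f p)⁻¹ * f p') = m ∧ 1 ≤ m := by
        have h3 := hb i (by omega)
        change 1 ≤ B.ht (f p') - B.ht (f p) at h3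
        refine ⟨(B.ht ((f p)⁻¹ * f p')).toNat, ?_, ?_⟩
        · rw [B.ht_mul, B.ht_inv]; omega
        · rw [B.ht_mul, B.ht_inv]; omega
      obtain ⟨hm1, hm2⟩ := hm
      have hstep : W' (B.hp ((f p')⁻¹ * f q')) ≤ κ ^ (m : ℤ) * W' (B.hp ((f p)⁻¹ * f q)) + C₁ := by
        rw [e1, B.hp_mul, B.hp_mul, B.ht_inv, neg_neg, map_mul]
        refine (hW.mul _ _).trans ?_
        have s1 := hW.mul ((B.θ ^ B.ht ((f p)⁻¹ * f p')) (B.hp ((f p)⁻¹ * f q)))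
          ((B.θ ^ B.ht ((f p)⁻¹ * f p')) ((B.θ ^ (-B.ht ((f p)⁻¹ * f q))) (B.hp ((f q)⁻¹ * f q'))))
        have s2 := Len.stretch hκ hst m (B.hp ((f p)⁻¹ * f q))
        have hbd' : W' (B.hp ((f p)⁻¹ * f p')⁻¹) + W' ((B.θ ^ B.ht ((f p)⁻¹ * f p'))
            ((B.θ ^ (-B.ht ((f p)⁻¹ * f q))) (B.hp ((f q)⁻¹ * f q')))) ≤ C₁ := hbd
        rw [hm1] at s1 hbd' ⊢
        linarith
      have hexp : B.ht (f p') - B.ht (f (A.t ^ a 0)) = (B.ht (f p) - B.ht (f (A.t ^ a 0))) + m := by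
        rw [← hm1, B.ht_mul, B.ht_inv]
        ring
      rw [hexp, zpow_add₀ hκ0.ne']
      have hpow : κ ≤ κ ^ (m : ℤ) := by
        rw [zpow_natCast]
        exact le_self_pow₀ hκ.le (by omega)
      have hcc : C₁ + C₁ / (κ - 1) = κ * (C₁ / (κ - 1)) := by
        field_simp
        ring
      have t1 : κ * (C₁ / (κ - 1)) ≤ κ ^ (m : ℤ) * (C₁ / (κ - 1)) := mul_le_mul_of_nonneg_right hpow hc'
      have t2 := mul_le_mul_of_nonneg_left ih' (zpow_nonneg hκ0.le (m : ℤ))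
      have t3 : κ ^ (m : ℤ) * ((C₀ + C₁ / (κ - 1)) * κ ^ (B.ht (f p) - B.ht (f (A.t ^ a 0)))) =
          (C₀ + C₁ / (κ - 1)) * (κ ^ (B.ht (f p) - B.ht (f (A.t ^ a 0))) * κ ^ (m : ℤ)) := by ring
      rw [t3] at t2
      linarith
  have := key n le_rfl
  linarith

/-- The stretch of a vertical strip in the source is bounded by the stretch in the target. -/
theorem typeA (c : CE A B f h R) {W : H → ℝ} (hW : Len W) (hl : Lip A.θ W) {W' : H' → ℝ} (hW' : Len W') (hg : Gen W')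
    {κ : ℝ} (hκ : 1 < κ) (hst : ∀ y, W' (B.θ y) ≤ κ * W' y) (s : H) (U : ℤ) :
    ∃ C : ℝ, 0 < C ∧ ∀ (a : ℕ → ℤ) (n : ℕ), (∀ i < n, |a (i + 1) - a i| ≤ U) →
      (∀ i < n, 1 ≤ B.ht (f (A.t ^ a (i + 1))) - B.ht (f (A.t ^ a i))) →
      W ((A.θ ^ (a n - a 0)) s) ≤ C * κ ^ (B.ht (f (A.t ^ a n)) - B.ht (f (A.t ^ a 0))) := by
  obtain ⟨C₁, D₁, hC₁, hD₁, h1⟩ := hpart c hW hl hg
  obtain ⟨C₂, hC₂, h2⟩ := fpart c hW' hκ hst s U
  refine ⟨C₁ * C₂ + D₁ + 1, by positivity, fun a n ha hb => ?_⟩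
  have hbn : ∀ i, i ≤ n → 0 ≤ B.ht (f (A.t ^ a i)) - B.ht (f (A.t ^ a 0)) := by
    intro i
    induction i with
    | zero => intro _; simp
    | succ i ih =>
      intro hi
      have := ih (by omega)
      have := hb i (by omega)
      omega
  have h3 := h1 (A.t ^ a n) (A.t ^ a 0 * (A.inc s * A.t ^ (a n - a 0))) (by
    rw [A.ht_mul, A.ht_mul, A.ht_inc, A.ht_tz, A.ht_tz, A.ht_tz]
    ring)
  have e1 : (A.t ^ a n)⁻¹ * (A.t ^ a 0 * (A.inc s * A.t ^ (a n - a 0))) =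
      A.t ^ (-(a n - a 0)) * (A.inc s * A.t ^ (a n - a 0)) := by
    rw [← mul_assoc, ← zpow_neg, ← zpow_add]
    congr 2
    ring
  rw [e1, A.conj_hp] at h3
  have h4 := mul_le_mul_of_nonneg_left (h2 a n ha hb) hC₁
  have h5 : 1 ≤ κ ^ (B.ht (f (A.t ^ a n)) - B.ht (f (A.t ^ a 0))) := one_le_zpow₀ hκ.le (hbn n le_rfl)
  have h6 : 0 ≤ D₁ * (κ ^ (B.ht (f (A.t ^ a n)) - B.ht (f (A.t ^ a 0))) - 1) := mul_nonneg hD₁ (by linarith)
  nlinarith [h3, h4, h5, h6]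

end MTorus
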