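import Pool.Agent.Lib.MP_f0e889_al.Gam

/-!
# Coarsely embedded paths in a tree are quasi-geodesics
-/

namespace MTorus

open FreeGroup

variable {α : Type} [DecidableEq α]

/-- The last `q` letters. -/
def sfx (q : ℕ) (z : FreeGroup α) : List (α × Bool) := z.toWord.reverse.take q

theorem sfx_letter {q : ℕ} (x : α × Bool) {z : FreeGroup α} (hz : q + 1 ≤ z.norm) :
    sfx q (mk [x] * z) = sfx q z ∧ z.norm ≤ (mk [x] * z).norm + 1 := by
  unfold FreeGroup.norm at *
  have e : (mk [x] * z).toWord = reduce (x :: z.toWord) := by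
    conv_lhs => rw [← mk_toWord (x := z), mul_mk, toWord_mk]
    rfl
  have h1 := reduce.cons (L := z.toWord) x
  rw [reduce_toWord] at h1
  unfold sfx
  rw [e, h1]
  cases hw : z.toWord with
  | nil => rw [hw] at hz; simp at hz
  | cons hd tl =>
    rw [hw] at hz
    have hl : q ≤ tl.length := by
      rw [List.length_cons] at hz
      omega
    have h2 : List.take q (tl.reverse ++ [hd]) = List.take q tl.reverse :=
      List.take_append_of_le_length (by rw [List.length_reverse]; exact hl)
    by_cases hc : x.1 = hd.1 ∧ x.2 = !hd.2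
    · simp only [hc, and_self, if_true]
      rw [List.reverse_cons, h2]
      exact ⟨rfl, by rw [List.length_cons]⟩
    · simp only [hc, if_false]
      rw [List.reverse_cons, List.take_append_of_le_length (by
        rw [List.length_reverse, List.length_cons]; omega)]
      refine ⟨rfl, ?_⟩
      simp only [List.length_cons]
      omega

theorem sfx_word {q : ℕ} (L : List (α × Bool)) {z : FreeGroup α} (hz : q + L.length ≤ z.norm) :
    sfx q (mk L * z) = sfx q z ∧ z.norm ≤ (mk L * z).norm + L.length := by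
  induction L with
  | nil =>
    have e : (mk ([] : List (α × Bool))) = 1 := rfl
    rw [e, one_mul]
    exact ⟨rfl, Nat.le_add_right _ _⟩
  | cons x L ih =>
    rw [List.length_cons] at hz
    obtain ⟨h1, h2⟩ := ih (by omega)
    have e : mk (x :: L) * z = mk [x] * (mk L * z) := by rw [← mul_assoc, mul_mk]; rfl
    obtain ⟨h3, h4⟩ := sfx_letter (q := q) x (z := mk L * z) (by omega)
    rw [e, h3, h1, List.length_cons]
    exact ⟨rfl, by omega⟩

theorem sfx_mul {q : ℕ} (u : FreeGroup α) {z : FreeGroup α} (hz : q + u.norm ≤ z.norm) :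
    sfx q (u * z) = sfx q z := by
  have h := (sfx_word (q := q) u.toWord (z := z) hz).1
  rw [mk_toWord] at h
  exact h

theorem sfx_div {q : ℕ} {z z' : FreeGroup α} (h : sfx q z = sfx q z') (hz : q ≤ z.norm) (hz' : q ≤ z'.norm) :
    (z * z'⁻¹).norm + 2 * q ≤ z.norm + z'.norm := by
  have key : ∀ w : FreeGroup α, w = mk ((w.toWord.reverse.drop q).reverse) * mk (sfx q w).reverse := by
    intro w
    rw [mul_mk, ← List.reverse_append]
    unfold sfx
    rw [List.take_append_drop, List.reverse_reverse, mk_toWord]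
  have h1 : z * z'⁻¹ = mk ((z.toWord.reverse.drop q).reverse) * (mk ((z'.toWord.reverse.drop q).reverse))⁻¹ := by
    conv_lhs => rw [key z, key z', h]
    group
  have h2 := norm_mul_le (mk ((z.toWord.reverse.drop q).reverse)) (mk ((z'.toWord.reverse.drop q).reverse))⁻¹
  rw [norm_inv_eq] at h2
  have h3 : ∀ w : FreeGroup α, q ≤ w.norm → (mk ((w.toWord.reverse.drop q).reverse)).norm + q ≤ w.norm := by
    intro w hw
    have h4 : (mk ((w.toWord.reverse.drop q).reverse)).norm ≤ ((w.toWord.reverse.drop q).reverse).length := norm_mk_le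
    rw [List.length_reverse, List.length_drop, List.length_reverse] at h4
    unfold FreeGroup.norm at *
    omega
  have h5 := h3 z hz
  have h6 := h3 z' hz'
  rw [h1]
  omega

/-- A coarsely embedded path in a tree is a quasi-geodesic. -/
theorem tree_path (L T : ℕ) (m : ℕ) : ∀ (N : ℕ) (z : ℕ → FreeGroup α),
    (∀ i < N, (z i * (z (i + 1))⁻¹).norm ≤ L) →
    (∀ i k, i ≤ k → k ≤ N → (z i * (z k)⁻¹).norm ≤ 3 * L + 1 → k ≤ i + T) →
    (z 0 * (z N)⁻¹).norm ≤ m → N ≤ (T + 1) * (m + 1) := by
  classical
  induction m using Nat.strong_induction_on with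
  | _ m ih =>
    intro N z h1 h2 h3
    by_cases hm : (z 0 * (z N)⁻¹).norm ≤ 3 * L + 1
    · have := h2 0 N (Nat.zero_le _) le_rfl hm
      nlinarith [Nat.zero_le ((T + 1) * m)]
    · -- the last index at distance at most `3 L + 1` from the start
      obtain ⟨i, hi⟩ : ∃ i, i = Nat.findGreatest (fun i => (z 0 * (z i)⁻¹).norm ≤ 3 * L + 1) N := ⟨_, rfl⟩
      have h0 : (z 0 * (z 0)⁻¹).norm ≤ 3 * L + 1 := by rw [mul_inv_cancel, FreeGroup.norm_one]; omega
      have hi1 : (z 0 * (z i)⁻¹).norm ≤ 3 * L + 1 := by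
        rw [hi]
        exact Nat.findGreatest_spec (P := fun i => (z 0 * (z i)⁻¹).norm ≤ 3 * L + 1) (Nat.zero_le N) h0
      have hiN : i ≤ N := by rw [hi]; exact Nat.findGreatest_le N
      have hi2 : ∀ k, i < k → k ≤ N → 3 * L + 1 < (z 0 * (z k)⁻¹).norm := by
        intro k hk hkN
        rw [hi] at hk
        exact not_le.1 (Nat.findGreatest_is_greatest (P := fun i => (z 0 * (z i)⁻¹).norm ≤ 3 * L + 1) hk hkN)
      have hiT := h2 0 i (Nat.zero_le _) hiN hi1
      have hine : i ≠ N := by
        rintro rfl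
        exact hm hi1
      have hiN' : i + 1 ≤ N := by omega
      -- the tail has a constant end
      have hconst : ∀ k, i + 1 + k ≤ N → sfx (2 * L + 1) (z (i + 1 + k) * (z 0)⁻¹) = sfx (2 * L + 1) (z (i + 1) * (z 0)⁻¹) := by
        intro k
        induction k with
        | zero => intro _; rfl
        | succ k ihk =>
          intro hk
          have h4 := ihk (by omega)
          have h5 := h1 (i + 1 + k) (by omega)
          have h6 := hi2 (i + 1 + k) (by omega) (by omega)
          rw [← norm_inv_eq, mul_inv_rev, inv_inv] at h5 h6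
          have e : z (i + 1 + (k + 1)) * (z 0)⁻¹ = (z (i + 1 + k + 1) * (z (i + 1 + k))⁻¹) * (z (i + 1 + k) * (z 0)⁻¹) := by
            rw [← add_assoc]; group
          rw [e, sfx_mul _ (by omega), h4]
      have hN := hconst (N - (i + 1)) (by omega)
      have eN : i + 1 + (N - (i + 1)) = N := by omega
      rw [eN] at hN
      have n1 := hi2 (i + 1) (by omega) hiN'
      have n2 := hi2 N (by omega) le_rfl
      have n3 : (z 0 * (z (i + 1))⁻¹).norm ≤ 4 * L + 1 := by
        have e : z 0 * (z (i + 1))⁻¹ = (z 0 * (z i)⁻¹) * (z i * (z (i + 1))⁻¹) := by group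
        rw [e]
        have := norm_mul_le (z 0 * (z i)⁻¹) (z i * (z (i + 1))⁻¹)
        have := h1 i (by omega)
        omega
      have s1 : (z (i + 1) * (z 0)⁻¹).norm = (z 0 * (z (i + 1))⁻¹).norm := by
        rw [← norm_inv_eq, mul_inv_rev, inv_inv]
      have s2 : (z N * (z 0)⁻¹).norm = (z 0 * (z N)⁻¹).norm := by
        rw [← norm_inv_eq, mul_inv_rev, inv_inv]
      have h7 := sfx_div hN.symm (by omega) (by omega)
      have e7 : z (i + 1) * (z 0)⁻¹ * (z N * (z 0)⁻¹)⁻¹ = z (i + 1) * (z N)⁻¹ := by group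
      rw [e7, s1, s2] at h7
      -- induction
      have hm' : (z (i + 1) * (z N)⁻¹).norm ≤ m - 1 := by omega
      have hm1 : 1 ≤ m := by omega
      have h8 := ih (m - 1) (by omega) (N - (i + 1)) (fun k => z (i + 1 + k)) (fun k hk => by
          show (z (i + 1 + k) * (z (i + 1 + k + 1))⁻¹).norm ≤ L
          exact h1 _ (by omega)) (fun a b hab hb hn => by
          have := h2 (i + 1 + a) (i + 1 + b) (by omega) (by omega) hn
          omega) (by
          show (z (i + 1 + 0) * (z (i + 1 + (N - (i + 1))))⁻¹).norm ≤ m - 1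
          rw [eN, add_zero]
          exact hm')
      have e8 : m - 1 + 1 = m := by omega
      rw [e8] at h8
      have h9 : (T + 1) * (m + 1) = (T + 1) * m + (T + 1) := by ring
      omega

end MTorus
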